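import Pool.Agent.U806.RevA

/-!
# Bodies with homothetic centrally symmetric sections: volumes of frustums
-/

set_option autoImplicit false

namespace Pool.Agent.U338.HS

open MeasureTheory Filter Topology
open scoped ENNReal Pointwise
open Pool.Agent.H349R2.Tet Pool.Agent.TH219.DL

/-- the plane -/
abbrev P2 := Fin 2 → ℝ

/-- a norm of the plane for which `e 0`, `e 1` and the two coordinates have norm one -/
structure Nrm (N : Seminorm ℝ P2) : Prop where
  e0 : N ![1, 0] ≤ 1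
  e1 : N ![0, 1] ≤ 1
  c0 : ∀ x, |x 0| ≤ N x
  c1 : ∀ x, |x 1| ≤ N x

/-- with every point `y` the set contains all points of the same height which are not farther from the
axis -/
def IsHom (N : Seminorm ℝ P2) (K : Set V) : Prop :=
  ∀ y ∈ K, ∀ z : V, z 0 = y 0 → N (pr z) ≤ N (pr y) → z ∈ K

variable {N : Seminorm ℝ P2}

theorem pr_cs (t : ℝ) (x : P2) : pr (cs t x) = x := by
  funext i
  fin_cases i <;> rfl

theorem cs_zero (t : ℝ) (x : P2) : cs t x 0 = t := rfl

theorem cs_eq (t : ℝ) (x : P2) : cs t x = ![t, x 0, x 1] := by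
  funext i
  fin_cases i <;> rfl

theorem Nrm.le (hN : Nrm N) (x : P2) : N x ≤ |x 0| + |x 1| := by
  have e : x = x 0 • ![1, 0] + x 1 • ![0, 1] := by
    funext i
    fin_cases i <;> simp
  have h1 : N x ≤ N (x 0 • ![1, 0]) + N (x 1 • ![0, 1]) := by
    conv_lhs => rw [e]
    exact map_add_le_add N _ _
  rw [map_smul_eq_mul, map_smul_eq_mul, Real.norm_eq_abs, Real.norm_eq_abs] at h1
  have h2 := mul_le_mul_of_nonneg_left hN.e0 (abs_nonneg (x 0))
  have h3 := mul_le_mul_of_nonneg_left hN.e1 (abs_nonneg (x 1))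
  linarith

theorem Nrm.e0' (hN : Nrm N) : N ![1, 0] = 1 := by
  refine le_antisymm hN.e0 ?_
  have := hN.c0 ![1, 0]
  simpa using this

theorem Nrm.cont (hN : Nrm N) : Continuous N := by
  have h1 : ∀ x y : P2, |N x - N y| ≤ |x 0 - y 0| + |x 1 - y 1| := by
    intro x y
    have h2 := abs_sub_map_le_sub N x y
    exact h2.trans (hN.le (x - y))
  rw [continuous_iff_continuousAt]
  intro x
  have h2 : Tendsto (fun y : P2 => |y 0 - x 0| + |y 1 - x 1|) (𝓝 x) (𝓝 0) := by
    have h3 : Continuous (fun y : P2 => |y 0 - x 0| + |y 1 - x 1|) := by fun_prop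
    have h4 := h3.tendsto x
    simpa using h4
  show Tendsto N (𝓝 x) (𝓝 (N x))
  rw [tendsto_iff_dist_tendsto_zero]
  refine squeeze_zero (fun _ => dist_nonneg) (fun y => ?_) h2
  rw [Real.dist_eq]
  exact h1 y x

/-- the distance from the axis -/
noncomputable def rad (N : Seminorm ℝ P2) (y : V) : ℝ := N (pr y)

theorem rad_nonneg (y : V) : 0 ≤ rad N y := apply_nonneg N _

theorem pr_cont : Continuous (pr : V → P2) := by
  refine continuous_pi fun i => ?_
  fin_cases i
  · exact continuous_apply 1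
  · exact continuous_apply 2

theorem rad_cont (hN : Nrm N) : Continuous (rad N) := hN.cont.comp pr_cont

theorem dist_le (x y : V) : N (pr (x - y)) ≤ rad N x + rad N y := by
  rw [pr_sub]
  exact map_sub_le_add N _ _

/-- the areas of the discs -/
def Area (N : Seminorm ℝ P2) (α : ℝ) : Prop := ENNReal.ofReal α ≤ volume {x : P2 | N x ≤ 1}

theorem area {α : ℝ} (hα : 0 ≤ α) (ha : Area N α) {r : ℝ} (hr : 0 ≤ r) :
    ENNReal.ofReal (α * r ^ 2) ≤ volume {x : P2 | N x ≤ r} := by
  rcases hr.eq_or_lt with h | h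
  · rw [← h]; simp
  have e : {x : P2 | N x ≤ r} = r • {x : P2 | N x ≤ 1} := by
    ext x
    rw [Set.mem_smul_set_iff_inv_smul_mem₀ h.ne']
    simp only [Set.mem_ofPred_eq]
    rw [map_smul_eq_mul, Real.norm_eq_abs, abs_of_pos (by positivity), inv_mul_le_iff₀ h, mul_one]
  rw [e, Measure.addHaar_smul]
  have e2 : Module.finrank ℝ P2 = 2 := by simp
  rw [e2, abs_of_nonneg (by positivity), mul_comm α, ENNReal.ofReal_mul (by positivity)]
  gcongr
  exact ha

/-- the part of the frustum between two points -/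
theorem frust (hN : Nrm N) {α : ℝ} (hα : 0 ≤ α) (har : Area N α) {K : Set V} (hK : IsCompact K)
    (hc : Convex ℝ K) (hr : IsHom N K) {A B : V}
    (hA : A ∈ K) (hB : B ∈ K) (hAB : A 0 < B 0) :
    ENNReal.ofReal (α * ((B 0 - A 0) *
        (rad N A ^ 2 + rad N A * rad N B + rad N B ^ 2) / 3)) ≤
      volume (K ∩ {y | A 0 < y 0 ∧ y 0 ≤ B 0}) := by
  have hS : MeasurableSet (K ∩ {y : V | A 0 < y 0 ∧ y 0 ≤ B 0}) := by
    apply hK.measurableSet.inter
    apply MeasurableSet.inter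
    · exact measurableSet_lt measurable_const (measurable_pi_apply 0)
    · exact measurableSet_le (measurable_pi_apply 0) measurable_const
  rw [U806.Rev.slices hS]
  set p := A 0 with hp
  set q := B 0 with hq
  set a := rad N A with ha
  set b := rad N B with hb
  have ha0 : 0 ≤ a := rad_nonneg A
  have hb0 : 0 ≤ b := rad_nonneg B
  have hpq : 0 < q - p := by linarith
  set β : ℝ := (b - a) / (q - p) with hβ
  set γ : ℝ := a - β * p with hγ
  have e1 : γ + β * p = a := by rw [hγ]; ring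
  have e2 : γ + β * q = b := by
    rw [hγ]
    have : β * (q - p) = b - a := by rw [hβ]; field_simp
    linarith
  have hcomb : ∀ t, p < t → t ≤ q → ∃ u v : ℝ, 0 ≤ u ∧ 0 ≤ v ∧ u + v = 1 ∧ t = u * p + v * q ∧
      γ + β * t = u * a + v * b := by
    intro t h1 h2
    refine ⟨(q - t) / (q - p), (t - p) / (q - p), div_nonneg (by linarith) hpq.le,
      div_nonneg (by linarith) hpq.le, by field_simp; ring, by field_simp; ring, ?_⟩
    rw [hγ, hβ]
    field_simp
    ring
  have hsub : ∀ t, p < t → t ≤ q → {x : Fin 2 → ℝ | N x ≤ γ + β * t} ⊆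
      {x : Fin 2 → ℝ | cs t x ∈ K ∩ {y : V | p < y 0 ∧ y 0 ≤ q}} := by
    intro t h1 h2 x hx
    have hx' : N x ≤ γ + β * t := hx
    refine ⟨?_, h1, h2⟩
    obtain ⟨u, v, hu, hv, huv, ht, hf⟩ := hcomb t h1 h2
    -- the points of the meridian
    have hA' : cs p (a • ![1, 0]) ∈ K := by
      refine hr A hA _ rfl ?_
      rw [pr_cs, map_smul_eq_mul, hN.e0', mul_one, Real.norm_eq_abs, abs_of_nonneg ha0]
      exact le_of_eq ha
    have hB' : cs q (b • ![1, 0]) ∈ K := by
      refine hr B hB _ rfl ?_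
      rw [pr_cs, map_smul_eq_mul, hN.e0', mul_one, Real.norm_eq_abs, abs_of_nonneg hb0]
      exact le_of_eq hb
    have hM := hc hA' hB' hu hv huv
    refine hr _ hM _ ?_ ?_
    · show t = u * p + v * q
      exact ht
    · rw [pr_cs, pr_add, pr_smul, pr_smul, pr_cs, pr_cs, smul_smul, smul_smul, ← add_smul,
        map_smul_eq_mul, hN.e0', mul_one, ← hf, Real.norm_eq_abs]
      exact hx'.trans (le_abs_self _)
  have hnn : ∀ t, p < t → t ≤ q → 0 ≤ γ + β * t := by
    intro t h1 h2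
    obtain ⟨u, v, hu, hv, huv, ht, hf⟩ := hcomb t h1 h2
    rw [hf]
    positivity
  have hint : ∫⁻ t in Set.Ioc p q, ENNReal.ofReal (α * (γ + β * t) ^ 2) =
      ENNReal.ofReal (α * ((q - p) * (a ^ 2 + a * b + b ^ 2) / 3)) := by
    rw [← ofReal_integral_eq_lintegral_ofReal]
    · rw [← intervalIntegral.integral_of_le (by linarith), intervalIntegral.integral_const_mul,
        U806.Rev.int_lin, e1, e2]
    · apply Continuous.integrableOn_Ioc
      fun_prop
    · exact Eventually.of_forall fun t => by positivity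
  rw [← hint, ← lintegral_indicator measurableSet_Ioc]
  apply lintegral_mono
  intro t
  by_cases ht : t ∈ Set.Ioc p q
  · rw [Set.indicator_of_mem ht]
    show ENNReal.ofReal (α * (γ + β * t) ^ 2) ≤ _
    exact (area hα har (hnn t ht.1 ht.2)).trans (measure_mono (hsub t ht.1 ht.2))
  · rw [Set.indicator_of_notMem ht]
    exact bot_le

/-- two frustums with a common face of maximal radius -/
theorem vol_two (hN : Nrm N) {α : ℝ} (hα : 0 ≤ α) (har : Area N α) {K : Set V} (hK : IsCompact K)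
    (hc : Convex ℝ K) (hr : IsHom N K) {x y w : V}
    (hx : x ∈ K) (hy : y ∈ K) (hw : w ∈ K) (hxy : y 0 < x 0) {σ : ℝ} (hσ : 0 ≤ σ)
    (h1 : σ ≤ rad N x) (h2 : σ ≤ rad N y) :
    ENNReal.ofReal (α * ((x 0 - y 0) * (σ ^ 2 + σ * rad N w + rad N w ^ 2) / 3)) ≤
      volume K := by
  set R := rad N w with hR
  have hR0 : 0 ≤ R := rad_nonneg w
  have mono : ∀ s : ℝ, σ ≤ s → σ ^ 2 + σ * R + R ^ 2 ≤ s ^ 2 + s * R + R ^ 2 := by
    intro s hs
    nlinarith [mul_nonneg (sub_nonneg.2 hs) hR0]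
  have hg0 : 0 ≤ σ ^ 2 + σ * R + R ^ 2 := by positivity
  rcases le_or_gt (x 0) (w 0) with hwx | hwx
  · refine le_trans ?_ ((frust hN hα har hK hc hr hy hw (by linarith)).trans
      (measure_mono Set.inter_subset_left))
    apply ENNReal.ofReal_le_ofReal
    have h3 := mono _ h2
    have h4 : (x 0 - y 0) * (σ ^ 2 + σ * R + R ^ 2) ≤
        (w 0 - y 0) * (rad N y ^ 2 + rad N y * R + R ^ 2) :=
      mul_le_mul (by linarith) h3 hg0 (by linarith)
    apply mul_le_mul_of_nonneg_left _ hα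
    linarith
  rcases le_or_gt (w 0) (y 0) with hwy | hwy
  · refine le_trans ?_ ((frust hN hα har hK hc hr hw hx (by linarith)).trans
      (measure_mono Set.inter_subset_left))
    apply ENNReal.ofReal_le_ofReal
    have h3 := mono _ h1
    have h4 : (x 0 - y 0) * (σ ^ 2 + σ * R + R ^ 2) ≤
        (x 0 - w 0) * (rad N x ^ 2 + rad N x * R + R ^ 2) :=
      mul_le_mul (by linarith) h3 hg0 (by linarith)
    apply mul_le_mul_of_nonneg_left _ hα
    have e : R ^ 2 + R * rad N x + rad N x ^ 2 = rad N x ^ 2 + rad N x * R + R ^ 2 := by ring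
    rw [e]
    linarith
  · have f1 := frust hN hα har hK hc hr hy hw hwy
    have f2 := frust hN hα har hK hc hr hw hx hwx
    have hd : Disjoint (K ∩ {z : V | y 0 < z 0 ∧ z 0 ≤ w 0})
        (K ∩ {z : V | w 0 < z 0 ∧ z 0 ≤ x 0}) := by
      rw [Set.disjoint_left]
      rintro z ⟨_, h3⟩ ⟨_, h4⟩
      exact absurd h4.1 (not_lt.2 h3.2)
    have hm : MeasurableSet (K ∩ {z : V | w 0 < z 0 ∧ z 0 ≤ x 0}) := by
      apply hK.measurableSet.inter
      apply MeasurableSet.inter
      · exact measurableSet_lt measurable_const (measurable_pi_apply 0)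
      · exact measurableSet_le (measurable_pi_apply 0) measurable_const
    have h5 : volume (K ∩ {z : V | y 0 < z 0 ∧ z 0 ≤ w 0}) +
        volume (K ∩ {z : V | w 0 < z 0 ∧ z 0 ≤ x 0}) ≤ volume K := by
      rw [← measure_union hd hm]
      exact measure_mono (Set.union_subset Set.inter_subset_left Set.inter_subset_left)
    refine le_trans ?_ ((add_le_add f1 f2).trans h5)
    have hry := rad_nonneg (N := N) y
    have hrx := rad_nonneg (N := N) x
    have hyw : 0 ≤ w 0 - y 0 := by linarith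
    have hwx' : 0 ≤ x 0 - w 0 := by linarith
    rw [← ENNReal.ofReal_add (by positivity) (by positivity)]
    apply ENNReal.ofReal_le_ofReal
    rw [← mul_add]
    apply mul_le_mul_of_nonneg_left _ hα
    have h3 := mul_le_mul_of_nonneg_left (mono _ h2) hyw
    have h4 := mul_le_mul_of_nonneg_left (mono _ h1) hwx'
    have e : R ^ 2 + R * rad N x + rad N x ^ 2 = rad N x ^ 2 + rad N x * R + R ^ 2 := by ring
    rw [e]
    have e2 : (x 0 - y 0) * (σ ^ 2 + σ * R + R ^ 2) =
        (w 0 - y 0) * (σ ^ 2 + σ * R + R ^ 2) + (x 0 - w 0) * (σ ^ 2 + σ * R + R ^ 2) := by ring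
    rw [e2]
    linarith

/-- layers of the lattice `ℤ R u + ℤ R w`, the next layer at height `z0`, shifted by `R c` -/
noncomputable def bas (u w c : P2) (R z0 : ℝ) : Fin 3 → V :=
  ![cs z0 (R • c), cs 0 (R • u), cs 0 (R • w)]

theorem dt_bas (u w c : P2) (R z0 : ℝ) :
    dt (bas u w c R z0) = z0 * ((u 0 * w 1 - u 1 * w 0) * R ^ 2) := by
  unfold dt bas
  rw [Matrix.det_fin_three, cs_eq, cs_eq, cs_eq]
  simp
  ring

theorem rad_lt {K : Set V} {R : ℝ} (hR : 0 < R) (h : ∀ x ∈ K, rad N x ≤ R) {x : V}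
    (hx : x ∈ interior K) : rad N x < R := by
  obtain ⟨ε, hε, hy⟩ := interior_push hx (cs 0 (pr x))
  have h1 := h _ hy
  have h2 : rad N (x + ε • cs 0 (pr x)) = (1 + ε) * rad N x := by
    unfold rad
    rw [pr_add, pr_smul, pr_cs]
    have e : pr x + ε • pr x = (1 + ε) • pr x := by rw [add_smul, one_smul]
    rw [e, map_smul_eq_mul, Real.norm_eq_abs, abs_of_pos (by positivity)]
  rw [h2] at h1
  rcases (rad_nonneg (N := N) x).eq_or_lt with h3 | h3
  · rw [← h3]; exact hR
  · nlinarith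

theorem packs {u w c : P2} {ρ : ℝ} (hD : 0 < u 0 * w 1 - u 1 * w 0)
    (hl : ∀ m n : ℤ, (m ≠ 0 ∨ n ≠ 0) → 2 ≤ N ((m : ℝ) • u + (n : ℝ) • w))
    (hc' : ∀ m n : ℤ, ρ ≤ N (c + (m : ℝ) • u + (n : ℝ) • w))
    {K : Set V} {R z0 h : ℝ} (hR : 0 < R) (hz : 0 < z0)
    (ha : ∀ x ∈ K, rad N x ≤ R) (hb : ∀ x ∈ K, ∀ y ∈ K, x 0 - y 0 ≤ h) (hc : h ≤ 2 * z0)
    (hd : ∀ x ∈ K, ∀ y ∈ K, z0 < x 0 - y 0 → rad N x + rad N y < ρ * R) :
    Packs K (bas u w c R z0) := by
  rw [packs_iff]
  refine ⟨?_, ?_⟩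
  · rw [dt_bas]; positivity
  rintro v ⟨z, rfl⟩ hv0 ⟨x, hx, hxv⟩
  set v : V := ∑ i, (z i : ℝ) • bas u w c R z0 i with hv
  have v0 : v 0 = z 0 * z0 := by
    rw [hv]; simp [Fin.sum_univ_three, bas, cs_zero]
  have vp : pr v = R • ((z 0 : ℝ) • c + (z 1 : ℝ) • u + (z 2 : ℝ) • w) := by
    rw [hv, Fin.sum_univ_three, pr_add, pr_add, pr_smul, pr_smul, pr_smul]
    show (z 0 : ℝ) • pr (cs z0 (R • c)) + (z 1 : ℝ) • pr (cs 0 (R • u)) +
      (z 2 : ℝ) • pr (cs 0 (R • w)) = _
    rw [pr_cs, pr_cs, pr_cs, smul_add, smul_add]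
    simp only [smul_smul, mul_comm R]
  have hdist := dist_le (N := N) x (x - v)
  have e0 : x - (x - v) = v := by abel
  rw [e0, vp, map_smul_eq_mul, Real.norm_eq_abs, abs_of_pos hR] at hdist
  have hr1 := rad_lt hR ha hx
  have hr2 := rad_lt hR ha hxv
  have e0' : x 0 - (x - v) 0 = v 0 := by simp
  -- layers at distance one
  have one : ∀ a ∈ interior K, ∀ b ∈ K, a 0 - b 0 = z0 → rad N a + rad N b < ρ * R := by
    intro a ha' b hb' hab
    obtain ⟨ε, hε, hy⟩ := interior_push ha' (cs 1 0)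
    have h1 := hd _ hy b hb' (by
      show z0 < a 0 + ε * 1 - b 0
      linarith)
    have h2 : rad N (a + ε • cs 1 0) = rad N a := by
      unfold rad
      rw [pr_add, pr_smul, pr_cs, smul_zero, add_zero]
    rwa [h2] at h1
  have key : (z 0 = 1 ∨ z 0 = -1) → rad N x + rad N (x - v) < ρ * R → False := by
    intro hk hlt
    have h1 : ρ ≤ N ((z 0 : ℝ) • c + (z 1 : ℝ) • u + (z 2 : ℝ) • w) := by
      rcases hk with h | h
      · have h3 := hc' (z 1) (z 2)
        rw [h]
        rwa [Int.cast_one, one_smul]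
      · have h3 := hc' (-z 1) (-z 2)
        rw [h, ← map_neg_eq_map]
        convert h3 using 2
        push_cast
        module
    have h2 := mul_le_mul_of_nonneg_left h1 hR.le
    linarith
  have height : ∀ a ∈ interior K, ∀ b ∈ K, a 0 - b 0 < h := by
    intro a ha' b hb'
    obtain ⟨ε, hε, hy⟩ := interior_push ha' (cs 1 0)
    have h1 := hb _ hy b hb'
    have h2 : (a + ε • cs 1 0) 0 = a 0 + ε := by
      show a 0 + ε * 1 = _
      ring
    rw [h2] at h1
    linarith
  rcases lt_trichotomy (z 0) 0 with hk | hk | hk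
  · rcases eq_or_ne (z 0) (-1) with h1 | h1
    · refine key (Or.inr h1) ?_
      rw [add_comm]
      refine one _ hxv x (interior_subset hx) ?_
      have : v 0 = -z0 := by rw [v0, h1]; push_cast; ring
      linarith
    · have h2 : (z 0 : ℝ) ≤ -2 := by exact_mod_cast (by omega : z 0 ≤ -2)
      have h3 := height _ hxv x (interior_subset hx)
      nlinarith
  · have hne : z 1 ≠ 0 ∨ z 2 ≠ 0 := by
      by_contra hcon
      push Not at hcon
      apply hv0
      have h1 : pr v = 0 := by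
        rw [vp, hk, hcon.1, hcon.2]; simp
      have h2 : v 0 = 0 := by rw [v0, hk]; simp
      funext i
      fin_cases i
      · exact h2
      · exact congrFun h1 0
      · exact congrFun h1 1
    have h1 := hl (z 1) (z 2) hne
    have h2 : (z 0 : ℝ) • c + (z 1 : ℝ) • u + (z 2 : ℝ) • w = (z 1 : ℝ) • u + (z 2 : ℝ) • w := by
      rw [hk]; simp
    rw [h2] at hdist
    have h3 := mul_le_mul_of_nonneg_left h1 hR.le
    linarith
  · rcases eq_or_ne (z 0) 1 with h1 | h1
    · refine key (Or.inl h1) (one _ hx _ (interior_subset hxv) ?_)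
      rw [e0', v0, h1]; push_cast; ring
    · have h2 : (2 : ℝ) ≤ z 0 := by exact_mod_cast (by omega : 2 ≤ z 0)
      have h3 := height _ hx _ (interior_subset hxv)
      nlinarith

/-- the lattice packing from one planar lattice -/
theorem exists_lattice (hN : Nrm N) {α : ℝ} (hα : 0 ≤ α) (har : Area N α) {u w c : P2} {ρ : ℝ}
    (hD : 0 < u 0 * w 1 - u 1 * w 0)
    (hl : ∀ m n : ℤ, (m ≠ 0 ∨ n ≠ 0) → 2 ≤ N ((m : ℝ) • u + (n : ℝ) • w))
    (hc' : ∀ m n : ℤ, ρ ≤ N (c + (m : ℝ) • u + (n : ℝ) • w)) (hρ : 1 ≤ ρ)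
    {κ : ℝ} (hκ1 : κ * (3 * (u 0 * w 1 - u 1 * w 0)) ≤ α * (ρ ^ 2 - ρ + 1))
    (hκ2 : κ * (3 * (u 0 * w 1 - u 1 * w 0)) ≤ α * 2)
    {K : Set V} (hK : IsCompact K) (hc : Convex ℝ K)
    (hne : (interior K).Nonempty) (hr : IsHom N K) :
    ∃ b : Fin 3 → V, Packs K b ∧ ENNReal.ofReal (κ * |dt b|) ≤ volume K := by
  obtain ⟨o, ho⟩ := hne
  have hKne : K.Nonempty := ⟨o, interior_subset ho⟩
  obtain ⟨w', hw, hwm⟩ := hK.exists_isMaxOn hKne (rad_cont hN).continuousOn
  obtain ⟨T, hT, hTm⟩ := hK.exists_isMaxOn hKne (continuous_apply (0 : Fin 3)).continuousOn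
  obtain ⟨B, hB, hBm⟩ := hK.exists_isMinOn hKne (continuous_apply (0 : Fin 3)).continuousOn
  have hwm' : ∀ x ∈ K, rad N x ≤ rad N w' := fun x hx => hwm hx
  have hTm' : ∀ x ∈ K, x 0 ≤ T 0 := fun x hx => hTm hx
  have hBm' : ∀ x ∈ K, B 0 ≤ x 0 := fun x hx => hBm hx
  set R := rad N w' with hR
  set h := T 0 - B 0 with hh
  have hR0 : 0 < R := by
    obtain ⟨ε, hε, hy⟩ := interior_push ho ![0, 1, 0]
    by_contra hcon
    have h0 : R ≤ 0 := not_lt.1 hcon
    have zero : ∀ u ∈ K, u 1 = 0 := by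
      intro u hu
      have h1 := hwm' u hu
      have h3 := hN.c0 (pr u)
      have h4 : |u 1| ≤ 0 := by
        have : |u 1| ≤ rad N u := h3
        linarith
      exact abs_nonpos_iff.1 h4
    have h1 := zero _ (interior_subset ho)
    have h2 := zero _ hy
    have h3 : (o + ε • (![0, 1, 0] : V)) 1 = o 1 + ε := by
      show o 1 + ε * 1 = _
      ring
    rw [h3, h1] at h2
    linarith
  have hh0 : 0 < h := by
    obtain ⟨ε, hε, hy⟩ := interior_push ho ![1, 0, 0]
    have h1 := hTm' _ hy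
    have h2 := hBm' _ (interior_subset ho)
    have h3 : (o + ε • (![1, 0, 0] : V)) 0 = o 0 + ε := by
      show o 0 + ε * 1 = _
      ring
    rw [h3] at h1
    linarith
  have hheight : ∀ x ∈ K, ∀ y ∈ K, x 0 - y 0 ≤ h := by
    intro x hx y hy
    have h1 := hTm' x hx
    have h2 := hBm' y hy
    linarith
  -- pairs with large radii
  let S : Set (V × V) := (K ×ˢ K) ∩ {p | h / 2 ≤ p.1 0 - p.2 0 ∧ ρ * R ≤ rad N p.1 + rad N p.2}
  have hS : IsCompact S := by
    apply (hK.prod hK).inter_right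
    apply IsClosed.inter
    · exact isClosed_le continuous_const
        (((continuous_apply 0).comp continuous_fst).sub ((continuous_apply 0).comp continuous_snd))
    · exact isClosed_le continuous_const
        (((rad_cont hN).comp continuous_fst).add ((rad_cont hN).comp continuous_snd))
  rcases S.eq_empty_or_nonempty with hS0 | hSne
  · -- layers at height `h / 2`
    have hd : ∀ x ∈ K, ∀ y ∈ K, h / 2 < x 0 - y 0 → rad N x + rad N y < ρ * R := by
      intro x hx y hy hxy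
      by_contra hcon
      have : (x, y) ∈ S := ⟨⟨hx, hy⟩, hxy.le, not_lt.1 hcon⟩
      rw [hS0] at this
      exact this
    have hp := packs (N := N) (z0 := h / 2) hD hl hc' hR0 (by linarith) hwm' hheight (by linarith) hd
    refine ⟨_, hp, ?_⟩
    rw [dt_bas, abs_of_pos (by positivity)]
    have hBT : B 0 < T 0 := by linarith
    refine le_trans ?_ (vol_two hN hα har hK hc hr hT hB hw hBT le_rfl (rad_nonneg T)
      (rad_nonneg B))
    apply ENNReal.ofReal_le_ofReal
    rw [← hh, ← hR]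
    have h1 : κ * (h / 2 * ((u 0 * w 1 - u 1 * w 0) * R ^ 2)) =
        κ * (3 * (u 0 * w 1 - u 1 * w 0)) * (h * R ^ 2 / 6) := by ring
    have h2 : α * (h * ((0 : ℝ) ^ 2 + 0 * R + R ^ 2) / 3) = α * 2 * (h * R ^ 2 / 6) := by ring
    rw [h1, h2]
    exact mul_le_mul_of_nonneg_right hκ2 (by positivity)
  · obtain ⟨p, hp, hpm⟩ := hS.exists_isMaxOn hSne
      (((continuous_apply (0 : Fin 3)).comp continuous_fst).sub
        ((continuous_apply (0 : Fin 3)).comp continuous_snd)).continuousOn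
    obtain ⟨⟨hx, hy⟩, hp1, hp2⟩ := hp
    obtain ⟨x, y⟩ := p
    simp only at hx hy hp1 hp2
    have hmax : ∀ a ∈ K, ∀ b ∈ K, x 0 - y 0 < a 0 - b 0 → rad N a + rad N b < ρ * R := by
      intro a ha b hb hab
      by_contra hcon
      have h1 : (a, b) ∈ S := ⟨⟨ha, hb⟩, by show h / 2 ≤ a 0 - b 0; linarith, not_lt.1 hcon⟩
      have h2 := hpm h1
      have h3 : a 0 - b 0 ≤ x 0 - y 0 := h2
      linarith
    have hz0 : 0 < x 0 - y 0 := by linarith
    have hpk := packs (N := N) (z0 := x 0 - y 0) hD hl hc' hR0 hz0 hwm' hheight (by linarith) hmax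
    refine ⟨_, hpk, ?_⟩
    rw [dt_bas, abs_of_pos (by positivity)]
    have hxw := hwm' x hx
    have hyw := hwm' y hy
    refine le_trans ?_ (vol_two hN hα har hK hc hr hx hy hw (by linarith) (σ := (ρ - 1) * R)
      (mul_nonneg (by linarith) hR0.le) (by linarith) (by linarith))
    apply ENNReal.ofReal_le_ofReal
    rw [← hR]
    have h1 : κ * ((x 0 - y 0) * ((u 0 * w 1 - u 1 * w 0) * R ^ 2)) =
        κ * (3 * (u 0 * w 1 - u 1 * w 0)) * ((x 0 - y 0) * R ^ 2 / 3) := by ring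
    have h2 : α * ((x 0 - y 0) * (((ρ - 1) * R) ^ 2 + (ρ - 1) * R * R + R ^ 2) / 3) =
        α * (ρ ^ 2 - ρ + 1) * ((x 0 - y 0) * R ^ 2 / 3) := by ring
    rw [h1, h2]
    exact mul_le_mul_of_nonneg_right hκ1 (by positivity)

end Pool.Agent.U338.HS
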