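import Pool.Agent.U338.HS.A
import Pool.Agent.U806.RevB

/-!
# Bodies with homothetic centrally symmetric sections: two circumscribed parallelograms
-/

set_option autoImplicit false

namespace Pool.Agent.U338.HS

open MeasureTheory Filter Topology
open scoped ENNReal Pointwise
open Pool.Agent.H349R2.Tet Pool.Agent.TH219.DL

variable {N : Seminorm ℝ P2}

/-- the lattice packing from a circumscribed parallelogram -/
theorem par (hN : Nrm N) {α : ℝ} (hα : 0 ≤ α) (har : Area N α) {f0 f1 g0 g1 ρ κ : ℝ}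
    (hf : ∀ x : P2, |f0 * x 0 + f1 * x 1| ≤ N x) (hg : ∀ x : P2, |g0 * x 0 + g1 * x 1| ≤ N x)
    (hΔ : 0 < f0 * g1 - f1 * g0) (hρ : 1 ≤ ρ) (hρ3 : ρ ≤ 3)
    (hv1 : ρ * (f0 * g1 - f1 * g0) ≤ f0 - g0) (hv2 : ρ * (f0 * g1 - f1 * g0) ≤ g1 + f1)
    (hκ1 : κ * 12 ≤ α * (f0 * g1 - f1 * g0) * (ρ ^ 2 - ρ + 1))
    (hκ2 : κ * 12 ≤ α * (f0 * g1 - f1 * g0) * 2)
    {K : Set V} (hK : IsCompact K) (hc : Convex ℝ K)
    (hne : (interior K).Nonempty) (hr : IsHom N K) :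
    ∃ b : Fin 3 → V, Packs K b ∧ ENNReal.ofReal (κ * |dt b|) ≤ volume K := by
  obtain ⟨D, hD⟩ : ∃ D : ℝ, D = f0 * g1 - f1 * g0 := ⟨_, rfl⟩
  rw [← hD] at hΔ hv1 hv2 hκ1 hκ2
  have hdet : (![2 * g1 / D, -(2 * g0) / D] : P2) 0 * (![-(2 * f1) / D, 2 * f0 / D] : P2) 1 -
      (![2 * g1 / D, -(2 * g0) / D] : P2) 1 * (![-(2 * f1) / D, 2 * f0 / D] : P2) 0 = 4 / D := by
    show 2 * g1 / D * (2 * f0 / D) - -(2 * g0) / D * (-(2 * f1) / D) = 4 / D
    field_simp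
    linarith
  -- the values of the two functionals
  have hfu : ∀ m n : ℝ, f0 * (m * (2 * g1 / D) + n * (-(2 * f1) / D)) +
      f1 * (m * (-(2 * g0) / D) + n * (2 * f0 / D)) = 2 * m := by
    intro m n
    have e : f0 * (m * (2 * g1 / D) + n * (-(2 * f1) / D)) +
      f1 * (m * (-(2 * g0) / D) + n * (2 * f0 / D)) = 2 * m * ((f0 * g1 - f1 * g0) / D) := by ring
    rw [e, ← hD, div_self hΔ.ne', mul_one]
  have hgu : ∀ m n : ℝ, g0 * (m * (2 * g1 / D) + n * (-(2 * f1) / D)) +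
      g1 * (m * (-(2 * g0) / D) + n * (2 * f0 / D)) = 2 * n := by
    intro m n
    have e : g0 * (m * (2 * g1 / D) + n * (-(2 * f1) / D)) +
      g1 * (m * (-(2 * g0) / D) + n * (2 * f0 / D)) = 2 * n * ((f0 * g1 - f1 * g0) / D) := by ring
    rw [e, ← hD, div_self hΔ.ne', mul_one]
  refine exists_lattice hN hα har (u := ![2 * g1 / D, -(2 * g0) / D])
    (w := ![-(2 * f1) / D, 2 * f0 / D]) (c := ![(g1 - f1) / D, (f0 - g0) / D]) (ρ := ρ) ?_ ?_ ?_ hρ
    ?_ ?_ hK hc hne hr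
  · rw [hdet]; positivity
  · intro m n hmn
    have h1 := hf ((m : ℝ) • ![2 * g1 / D, -(2 * g0) / D] + (n : ℝ) • ![-(2 * f1) / D, 2 * f0 / D])
    have h2 := hg ((m : ℝ) • ![2 * g1 / D, -(2 * g0) / D] + (n : ℝ) • ![-(2 * f1) / D, 2 * f0 / D])
    have e1 : f0 * ((m : ℝ) • ![2 * g1 / D, -(2 * g0) / D] +
        (n : ℝ) • ![-(2 * f1) / D, 2 * f0 / D] : P2) 0 +
        f1 * ((m : ℝ) • ![2 * g1 / D, -(2 * g0) / D] +
        (n : ℝ) • ![-(2 * f1) / D, 2 * f0 / D] : P2) 1 = 2 * m := hfu m n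
    have e2 : g0 * ((m : ℝ) • ![2 * g1 / D, -(2 * g0) / D] +
        (n : ℝ) • ![-(2 * f1) / D, 2 * f0 / D] : P2) 0 +
        g1 * ((m : ℝ) • ![2 * g1 / D, -(2 * g0) / D] +
        (n : ℝ) • ![-(2 * f1) / D, 2 * f0 / D] : P2) 1 = 2 * n := hgu m n
    rw [e1] at h1
    rw [e2] at h2
    rcases hmn with h | h
    · have h3 : (1 : ℝ) ≤ |(m : ℝ)| := by
        have := Int.one_le_abs h
        exact_mod_cast this
      rw [abs_mul, abs_two] at h1
      linarith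
    · have h3 : (1 : ℝ) ≤ |(n : ℝ)| := by
        have := Int.one_le_abs h
        exact_mod_cast this
      rw [abs_mul, abs_two] at h2
      linarith
  · intro m n
    obtain ⟨x, hx⟩ : ∃ x : P2, x = ![(g1 - f1) / D, (f0 - g0) / D] +
      (m : ℝ) • ![2 * g1 / D, -(2 * g0) / D] + (n : ℝ) • ![-(2 * f1) / D, 2 * f0 / D] := ⟨_, rfl⟩
    rw [← hx]
    have x0 : x 0 = (g1 - f1) / D + m * (2 * g1 / D) + n * (-(2 * f1) / D) := by rw [hx]; rfl
    have x1 : x 1 = (f0 - g0) / D + m * (-(2 * g0) / D) + n * (2 * f0 / D) := by rw [hx]; rfl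
    have e1 : f0 * x 0 + f1 * x 1 = 1 + 2 * m := by
      have h := hfu (1 / 2 + m) (1 / 2 + n)
      rw [x0, x1]
      linear_combination h
    have e2 : g0 * x 0 + g1 * x 1 = 1 + 2 * n := by
      have h := hgu (1 / 2 + m) (1 / 2 + n)
      rw [x0, x1]
      linear_combination h
    have h1 := hf x
    have h2 := hg x
    rw [e1] at h1
    rw [e2] at h2
    have big : ∀ k : ℤ, k ≠ 0 → k ≠ -1 → (3 : ℝ) ≤ |1 + 2 * (k : ℝ)| := by
      intro k h0 h1
      have h3 : (3 : ℤ) ≤ |1 + 2 * k| := by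
        rcases lt_or_ge k 0 with h | h
        · rw [abs_of_neg (by omega)]; omega
        · rw [abs_of_nonneg (by omega)]; omega
      exact_mod_cast h3
    by_cases hm : m ≠ 0 ∧ m ≠ -1
    · have := big m hm.1 hm.2
      linarith
    by_cases hn : n ≠ 0 ∧ n ≠ -1
    · have := big n hn.1 hn.2
      linarith
    have hm' : m = 0 ∨ m = -1 := by
      by_contra hcon
      push Not at hcon
      exact hm hcon
    have hn' : n = 0 ∨ n = -1 := by
      by_contra hcon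
      push Not at hcon
      exact hn hcon
    have hr1 : ρ ≤ (f0 - g0) / D := by rw [le_div_iff₀ hΔ]; exact hv1
    have hr2 : ρ ≤ (g1 + f1) / D := by rw [le_div_iff₀ hΔ]; exact hv2
    have hc0 := hN.c0 x
    have hc1 := hN.c1 x
    rcases hm' with rfl | rfl <;> rcases hn' with rfl | rfl
    · have e : x 1 = (f0 - g0) / D := by rw [x1]; push_cast; ring
      rw [e] at hc1
      exact (hr1.trans (le_abs_self _)).trans hc1
    · have e : x 0 = (g1 + f1) / D := by rw [x0]; push_cast; ring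
      rw [e] at hc0
      exact (hr2.trans (le_abs_self _)).trans hc0
    · have e : x 0 = -((g1 + f1) / D) := by rw [x0]; push_cast; ring
      rw [e, abs_neg] at hc0
      exact (hr2.trans (le_abs_self _)).trans hc0
    · have e : x 1 = -((f0 - g0) / D) := by rw [x1]; push_cast; ring
      rw [e, abs_neg] at hc1
      exact (hr1.trans (le_abs_self _)).trans hc1
  · rw [hdet]
    have e : κ * (3 * (4 / D)) = κ * 12 / D := by ring
    rw [e, div_le_iff₀ hΔ]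
    linarith
  · rw [hdet]
    have e : κ * (3 * (4 / D)) = κ * 12 / D := by ring
    rw [e, div_le_iff₀ hΔ]
    linarith

/-- the constant -/
noncomputable def cst : ℝ := √2 / 2 - 1 / 3

theorem cst_gt : 0.3737 < cst := by
  have := Pool.Agent.U806.Rev.lt_sqrt_two
  unfold cst
  linarith

theorem cst_lt : cst * 12 < 4.48533 := by
  have := Pool.Agent.U806.Rev.sqrt_two_lt
  unfold cst
  linarith

/-- a function which is affine in both variables -/
theorem bil {p q r s x y x0 x1 y0 y1 : ℝ} (hx0 : x0 ≤ x) (hx1 : x ≤ x1) (hy0 : y0 ≤ y) (hy1 : y ≤ y1)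
    (h00 : 0 ≤ p + q * x0 + r * y0 + s * (x0 * y0)) (h01 : 0 ≤ p + q * x0 + r * y1 + s * (x0 * y1))
    (h10 : 0 ≤ p + q * x1 + r * y0 + s * (x1 * y0))
    (h11 : 0 ≤ p + q * x1 + r * y1 + s * (x1 * y1)) : 0 ≤ p + q * x + r * y + s * (x * y) := by
  have aff : ∀ {p q x x0 x1 : ℝ}, x0 ≤ x → x ≤ x1 → 0 ≤ p + q * x0 → 0 ≤ p + q * x1 →
      0 ≤ p + q * x := by
    intro p q x x0 x1 h0 h1 h2 h3
    rcases le_total 0 q with h | h
    · nlinarith
    · nlinarith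
  have h0 : 0 ≤ (p + q * x0) + (r + s * x0) * y := by
    refine aff hy0 hy1 ?_ ?_
    · linarith
    · linarith
  have h1 : 0 ≤ (p + q * x1) + (r + s * x1) * y := by
    refine aff hy0 hy1 ?_ ?_
    · linarith
    · linarith
  have h2 : 0 ≤ (p + r * y) + (q + s * y) * x := by
    refine aff hx0 hx1 ?_ ?_
    · linarith
    · linarith
  linarith

/-- the inequality for the second parallelogram -/
theorem ineq1 {a b h1 h2 : ℝ} (ha2 : a ≤ 2) (hb2 : b ≤ 2) (ha1 : 1 ≤ a) (hb1 : 1 ≤ b)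
    (hab : a + b ≤ 1.1214 * (a * b))
    (l1 : a - 1 + 0.46 ≤ h1) (u1 : h1 ≤ 1 + 0.46 * (a - 1)) (l2 : b - 1 + 0.46 ≤ h2)
    (u2 : h2 ≤ 1 + 0.46 * (b - 1)) :
    4.48533 * (h1 * h2) ≤ (a + b) * (2 * (h2 + 0.46 * h1) - 1.25 * 1.2116) := by
  have hA : 0 ≤ 2 - a := by linarith
  have hB : 0 ≤ 2 - b := by linarith
  have hAB := mul_nonneg hA hB
  have hAa := mul_nonneg hA (by linarith : 0 ≤ a - 1)
  have hBb := mul_nonneg hB (by linarith : 0 ≤ b - 1)
  have hab1 := mul_nonneg (by linarith : 0 ≤ a - 1) (by linarith : 0 ≤ b - 1)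
  have hb6 : 1.6 ≤ b := by
    have h := mul_nonneg hA (by linarith : 0 ≤ 1.1214 * b - 1)
    nlinarith
  have ha6 : 1.6 ≤ a := by
    have h := mul_nonneg hB (by linarith : 0 ≤ 1.1214 * a - 1)
    nlinarith
  have hAb := mul_nonneg hA (by linarith : 0 ≤ b - 1.6)
  have hBa := mul_nonneg hB (by linarith : 0 ≤ a - 1.6)
  have hsb := sq_nonneg (2 - b - 0.39)
  have hAA := mul_nonneg hA hA
  have key := bil (p := -(1.25 * 1.2116) * (a + b)) (q := 0.92 * (a + b)) (r := 2 * (a + b))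
    (s := -4.48533) l1 u1 l2 u2 (by nlinarith) (by nlinarith) (by nlinarith) (by nlinarith)
  nlinarith [key]

theorem ineq2 {a b h1 h2 : ℝ} (ha2 : a ≤ 2) (hb2 : b ≤ 2) (ha1 : 1 ≤ a) (hb1 : 1 ≤ b)
    (hab : a + b ≤ 1.1214 * (a * b))
    (l1 : a - 1 + 0.46 ≤ h1) (u1 : h1 ≤ 1 + 0.46 * (a - 1)) (l2 : b - 1 + 0.46 ≤ h2)
    (u2 : h2 ≤ 1 + 0.46 * (b - 1)) :
    4.48533 * (h1 * h2) ≤ (a + b) * 1.2116 * 2 := by
  have hA : 0 ≤ 2 - a := by linarith
  have hB : 0 ≤ 2 - b := by linarith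
  have hAB := mul_nonneg hA hB
  have h1p : 0 ≤ h1 := by linarith
  have h2p : 0 ≤ h2 := by linarith
  have h3 : h1 * h2 ≤ (1 + 0.46 * (a - 1)) * (1 + 0.46 * (b - 1)) :=
    mul_le_mul u1 u2 h2p (by linarith)
  nlinarith

end Pool.Agent.U338.HS
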