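import Pool.Agent.U338.HS.B

/-!
# Bodies with homothetic centrally symmetric sections: the packing
-/

set_option autoImplicit false

namespace Pool.Agent.U338.HS

open MeasureTheory Filter Topology
open scoped ENNReal Pointwise
open Pool.Agent.H349R2.Tet Pool.Agent.TH219.DL

variable {N : Seminorm ℝ P2}

theorem six {a b : ℝ} (ha2 : a ≤ 2) (hb1 : 1 ≤ b)
    (hab : a + b ≤ 1.1214 * (a * b)) : 1.6 ≤ b := by
  have h := mul_nonneg (by linarith : 0 ≤ 2 - a) (by linarith : 0 ≤ 1.1214 * b - 1)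
  nlinarith

/-- the parallelogram with sides of the directions `(1, 1)` and `(1, -1)` -/
theorem diag (hN : Nrm N) {a b : ℝ} (ha1 : 1 ≤ a) (ha2 : a ≤ 2) (hb1 : 1 ≤ b) (hb2 : b ≤ 2)
    (hab : 2 ≤ a * b) (hA : ∀ x : P2, |x 0 + x 1| ≤ a * N x) (hB : ∀ x : P2, |x 1 - x 0| ≤ b * N x)
    (har : Area N (a + b)) (hlt : 1.1214 * (a * b) < a + b)
    {K : Set V} (hK : IsCompact K) (hc : Convex ℝ K)
    (hne : (interior K).Nonempty) (hr : IsHom N K) :
    ∃ b : Fin 3 → V, Packs K b ∧ ENNReal.ofReal (cst * |dt b|) ≤ volume K := by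
  have ha0 : 0 < a := by linarith
  have hb0 : 0 < b := by linarith
  have hab0 : 0 < a * b := by positivity
  have hD : 1 / a * (1 / b) - 1 / a * (-(1 / b)) = 2 / (a * b) := by field_simp; norm_num
  have hsq : √2 ^ 2 = (2 : ℝ) := Real.sq_sqrt (by norm_num)
  have hs1 := Pool.Agent.U806.Rev.lt_sqrt_two
  have hs2 := Pool.Agent.U806.Rev.sqrt_two_lt
  obtain ⟨s, hs⟩ : ∃ s : ℝ, s = (a + b) / 2 := ⟨_, rfl⟩
  have hsab : a * b ≤ s ^ 2 := by rw [hs]; nlinarith [sq_nonneg (a - b)]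
  have hs0 : 0 < s := by rw [hs]; linarith
  have hs2' : √2 ≤ s := by
    apply Real.sqrt_le_iff.2
    exact ⟨hs0.le, by linarith⟩
  have hK1 : cst * 12 * (a * b) ≤ 2 * (a + b) * (s ^ 2 - s + 1) := by
    have h1 : cst * 12 * (a * b) ≤ cst * 12 * s ^ 2 :=
      mul_le_mul_of_nonneg_left hsab (by have := cst_gt; linarith)
    have h2 : 0 ≤ (s - √2) * (s - √2 / 2) := mul_nonneg (by linarith) (by linarith)
    have h3 : (s - √2) * (s - √2 / 2) = s ^ 2 - s + 1 - 3 * cst * s := by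
      unfold cst
      linear_combination (1 / 2) * hsq
    have h4 : 2 * (a + b) = 4 * s := by rw [hs]; ring
    rw [h4]
    rw [h3] at h2
    have h5 := mul_nonneg hs0.le h2
    nlinarith
  have hK2 : cst * 12 * (a * b) ≤ 2 * (a + b) * 2 := by
    have h1 := cst_lt
    have h2 : cst * 12 * (a * b) ≤ 4.48533 * (a * b) := mul_le_mul_of_nonneg_right h1.le hab0.le
    linarith
  refine par hN (α := a + b) (by linarith) har (f0 := 1 / a) (f1 := 1 / a) (g0 := -(1 / b))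
    (g1 := 1 / b) (ρ := s) ?_ ?_ ?_ ?_ ?_ ?_ ?_ ?_ ?_ hK hc hne hr
  · intro x
    have e : 1 / a * x 0 + 1 / a * x 1 = (x 0 + x 1) / a := by ring
    rw [e, abs_div, abs_of_pos ha0, div_le_iff₀ ha0, mul_comm]
    exact hA x
  · intro x
    have e : -(1 / b) * x 0 + 1 / b * x 1 = (x 1 - x 0) / b := by ring
    rw [e, abs_div, abs_of_pos hb0, div_le_iff₀ hb0, mul_comm]
    exact hB x
  · rw [hD]; positivity
  · rw [hs]; linarith
  · rw [hs]; linarith
  · rw [hD, hs]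
    apply le_of_eq
    field_simp
    ring
  · rw [hD, hs]
    apply le_of_eq
    field_simp
  · rw [hD]
    have e : (a + b) * (2 / (a * b)) * (s ^ 2 - s + 1) =
        2 * (a + b) * (s ^ 2 - s + 1) / (a * b) := by ring
    rw [e, le_div_iff₀ hab0]
    exact hK1
  · rw [hD]
    have e : (a + b) * (2 / (a * b)) * 2 = 2 * (a + b) * 2 / (a * b) := by ring
    rw [e, le_div_iff₀ hab0]
    exact hK2

/-- the rotated parallelogram -/
theorem rot (hN : Nrm N) {a b : ℝ} (ha1 : 1 ≤ a) (ha2 : a ≤ 2) (hb1 : 1 ≤ b) (hb2 : b ≤ 2)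
    (har : Area N (a + b)) (hab : a + b ≤ 1.1214 * (a * b)) {h1 h2 : ℝ}
    (hA : ∀ x : P2, |x 0 + 0.46 * x 1| ≤ h1 * N x) (hB : ∀ x : P2, |x 1 - 0.46 * x 0| ≤ h2 * N x)
    (l1 : a - 1 + 0.46 ≤ h1) (u1 : h1 ≤ 1 + 0.46 * (a - 1)) (l2 : b - 1 + 0.46 ≤ h2)
    (u2 : h2 ≤ 1 + 0.46 * (b - 1))
    {K : Set V} (hK : IsCompact K) (hc : Convex ℝ K)
    (hne : (interior K).Nonempty) (hr : IsHom N K) :
    ∃ b : Fin 3 → V, Packs K b ∧ ENNReal.ofReal (cst * |dt b|) ≤ volume K := by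
  have hb6 : 1.6 ≤ b := six ha2 hb1 hab
  have ha6 : 1.6 ≤ a := six hb2 ha1 (by linarith)
  have h10 : 0 < h1 := by linarith
  have h20 : 0 < h2 := by linarith
  have h12 : 0 < h1 * h2 := by positivity
  have hD : 1 / h1 * (1 / h2) - 0.46 / h1 * (-(0.46 / h2)) = 1.2116 / (h1 * h2) := by
    field_simp; norm_num
  have hI1 := ineq1 ha2 hb2 ha1 hb1 hab l1 u1 l2 u2
  have hI2 := ineq1 hb2 ha2 hb1 ha1 (by linarith) l2 u2 l1 u1
  have hI3 := ineq2 ha2 hb2 ha1 hb1 hab l1 u1 l2 u2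
  have hK2 : cst * 12 * (h1 * h2) ≤ (a + b) * 1.2116 * 2 := by
    have h1' := cst_lt
    have h2' : cst * 12 * (h1 * h2) ≤ 4.48533 * (h1 * h2) :=
      mul_le_mul_of_nonneg_right h1'.le h12.le
    linarith
  have gen : ∀ ρ : ℝ, 1 ≤ ρ → ρ ≤ 3 → ρ * 1.2116 ≤ h2 + 0.46 * h1 → ρ * 1.2116 ≤ h1 + 0.46 * h2 →
      4.48533 * (h1 * h2) ≤ (a + b) * (2 * (ρ * 1.2116) - 1.25 * 1.2116) →
      ∃ b : Fin 3 → V, Packs K b ∧ ENNReal.ofReal (cst * |dt b|) ≤ volume K := by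
    intro ρ hρ hρ3 hρ1 hρ2 hI
    refine par hN (α := a + b) (by linarith) har (f0 := 1 / h1) (f1 := 0.46 / h1)
      (g0 := -(0.46 / h2)) (g1 := 1 / h2) (ρ := ρ) ?_ ?_ ?_ hρ hρ3 ?_ ?_ ?_ ?_ hK hc hne hr
    · intro x
      have e : 1 / h1 * x 0 + 0.46 / h1 * x 1 = (x 0 + 0.46 * x 1) / h1 := by ring
      rw [e, abs_div, abs_of_pos h10, div_le_iff₀ h10, mul_comm (N x)]
      exact hA x
    · intro x
      have e : -(0.46 / h2) * x 0 + 1 / h2 * x 1 = (x 1 - 0.46 * x 0) / h2 := by ring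
      rw [e, abs_div, abs_of_pos h20, div_le_iff₀ h20, mul_comm (N x)]
      exact hB x
    · rw [hD]; positivity
    · rw [hD]
      have e : 1 / h1 - -(0.46 / h2) = (h2 + 0.46 * h1) / (h1 * h2) := by
        rw [sub_neg_eq_add, div_add_div _ _ h10.ne' h20.ne']
        ring
      rw [e, ← mul_div_assoc]
      exact div_le_div_of_nonneg_right hρ1 h12.le
    · rw [hD]
      have e : 1 / h2 + 0.46 / h1 = (h1 + 0.46 * h2) / (h1 * h2) := by
        rw [div_add_div _ _ h20.ne' h10.ne']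
        ring
      rw [e, ← mul_div_assoc]
      exact div_le_div_of_nonneg_right hρ2 h12.le
    · rw [hD]
      have e : (a + b) * (1.2116 / (h1 * h2)) * (ρ ^ 2 - ρ + 1) =
          (a + b) * 1.2116 * (ρ ^ 2 - ρ + 1) / (h1 * h2) := by ring
      rw [e, le_div_iff₀ h12]
      have h1' := cst_lt
      have h2' : cst * 12 * (h1 * h2) ≤ 4.48533 * (h1 * h2) :=
        mul_le_mul_of_nonneg_right h1'.le h12.le
      have h3' : 0 ≤ (a + b) * (ρ - 1.5) ^ 2 := by positivity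
      nlinarith
    · rw [hD]
      have e : (a + b) * (1.2116 / (h1 * h2)) * 2 =
          (a + b) * 1.2116 * 2 / (h1 * h2) := by ring
      rw [e, le_div_iff₀ h12]
      exact hK2
  rcases le_total (h2 + 0.46 * h1) (h1 + 0.46 * h2) with h | h
  · refine gen ((h2 + 0.46 * h1) / 1.2116) ?_ ?_ ?_ ?_ ?_
    · rw [le_div_iff₀ (by norm_num)]; linarith
    · rw [div_le_iff₀ (by norm_num)]; linarith
    · rw [div_mul_cancel₀ _ (by norm_num)]
    · rw [div_mul_cancel₀ _ (by norm_num)]; exact h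
    · rw [div_mul_cancel₀ _ (by norm_num)]; linarith
  · refine gen ((h1 + 0.46 * h2) / 1.2116) ?_ ?_ ?_ ?_ ?_
    · rw [le_div_iff₀ (by norm_num)]; linarith
    · rw [div_le_iff₀ (by norm_num)]; linarith
    · rw [div_mul_cancel₀ _ (by norm_num)]; exact h
    · rw [div_mul_cancel₀ _ (by norm_num)]
    · rw [div_mul_cancel₀ _ (by norm_num)]; linarith

end Pool.Agent.U338.HS
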