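import Pool.Agent.U338.HS.C

/-!
# Bodies with homothetic centrally symmetric sections: support numbers and area of a norm
-/

set_option autoImplicit false

namespace Pool.Agent.U338.HS

open MeasureTheory Filter Topology
open scoped ENNReal Pointwise
open Pool.Agent.H349R2.Tet Pool.Agent.TH219.DL

variable {N : Seminorm ℝ P2}

theorem ball_compact (hN : Nrm N) : IsCompact {x : P2 | N x ≤ 1} := by
  apply Metric.isCompact_of_isClosed_isBounded
  · exact isClosed_le hN.cont continuous_const
  · apply (Metric.isBounded_closedBall (x := (0 : P2)) (r := 1)).subset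
    intro x hx
    have hx' : N x ≤ 1 := hx
    rw [mem_closedBall_zero_iff, pi_norm_le_iff_of_nonneg zero_le_one]
    intro i
    rw [Real.norm_eq_abs]
    fin_cases i
    · exact (hN.c0 x).trans hx'
    · exact (hN.c1 x).trans hx'

/-- a support point -/
theorem supp (hN : Nrm N) (p q : ℝ) : ∃ x : P2, N x ≤ 1 ∧
    ∀ y : P2, |p * y 0 + q * y 1| ≤ (p * x 0 + q * x 1) * N y := by
  obtain ⟨x, hx, hxm⟩ := (ball_compact hN).exists_isMaxOn ⟨0, by simp⟩
    (f := fun x : P2 => p * x 0 + q * x 1) (by fun_prop)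
  refine ⟨x, hx, fun y => ?_⟩
  rcases (apply_nonneg N y).eq_or_lt with h | h
  · have h0 : y 0 = 0 := abs_nonpos_iff.1 ((hN.c0 y).trans h.ge)
    have h1 : y 1 = 0 := abs_nonpos_iff.1 ((hN.c1 y).trans h.ge)
    rw [h0, h1, ← h]; simp
  · have key : ∀ s : ℝ, |s| = 1 → s * (p * y 0 + q * y 1) ≤ (p * x 0 + q * x 1) * N y := by
      intro s hs
      have h1 : (s * (N y)⁻¹) • y ∈ {x : P2 | N x ≤ 1} := by
        show N _ ≤ 1
        rw [map_smul_eq_mul, Real.norm_eq_abs, abs_mul, hs, one_mul, abs_of_pos (by positivity),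
          inv_mul_cancel₀ h.ne']
      have h2 : p * ((s * (N y)⁻¹) • y) 0 + q * ((s * (N y)⁻¹) • y) 1 ≤ p * x 0 + q * x 1 := hxm h1
      have h3 := mul_le_mul_of_nonneg_right h2 h.le
      have h4 : (p * ((s * (N y)⁻¹) • y) 0 + q * ((s * (N y)⁻¹) • y) 1) * N y =
          s * (p * y 0 + q * y 1) := by
        simp only [Pi.smul_apply, smul_eq_mul]
        field_simp
      rw [h4] at h3
      exact h3
    rw [abs_le]
    have h1 := key 1 (by simp)
    have h2 := key (-1) (by simp)
    constructor <;> linarith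

/-! ### area -/

theorem slices2 {S : Set P2} (hS : MeasurableSet S) :
    volume S = ∫⁻ t : ℝ, volume {y : ℝ | (![t, y] : P2) ∈ S} := by
  have h := volume_preserving_finTwoArrow ℝ
  have h2 := (h.symm _).measure_preimage hS.nullMeasurableSet
  rw [← h2]
  have hm : MeasurableSet ((MeasurableEquiv.finTwoArrow (α := ℝ)).symm ⁻¹' S) :=
    (MeasurableEquiv.measurable _) hS
  have h3 := Measure.prod_apply (μ := (volume : Measure ℝ)) (ν := (volume : Measure ℝ)) hm
  rw [Measure.volume_eq_prod]
  refine Eq.trans h3 ?_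
  apply lintegral_congr
  intro t
  congr 1

/-- two sides of a quadrangle -/
noncomputable def F (p q t : ℝ) : ℝ :=
  if t ≤ p then 1 + (q - 1) / p * t else q / (1 - p) * (1 - t)

theorem F_meas (p q : ℝ) : Measurable (F p q) := by
  unfold F
  refine Measurable.ite measurableSet_Iic ?_ ?_ <;> fun_prop

theorem F_nonneg {p q : ℝ} (hp0 : 0 ≤ p) (hp1 : p ≤ 1) (hq0 : 0 ≤ q) (hq1 : q ≤ 1) {t : ℝ}
    (ht0 : 0 < t) (ht1 : t ≤ 1) : 0 ≤ F p q t := by
  unfold F
  split_ifs with h
  · have hp : 0 < p := lt_of_lt_of_le ht0 h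
    have h1 : (q - 1) / p * t = (q - 1) * (t / p) := by ring
    rw [h1]
    have h2 : t / p ≤ 1 := by rw [div_le_one hp]; exact h
    have h3 : 0 ≤ t / p := by positivity
    nlinarith
  · have h1 : 0 ≤ 1 - p := by linarith
    exact mul_nonneg (div_nonneg hq0 h1) (by linarith)

theorem int_aff (α β p q : ℝ) : ∫ t in p..q, (α + β * t) =
    (q - p) * ((α + β * p) + (α + β * q)) / 2 := by
  rw [intervalIntegral.integral_add]
  · rw [intervalIntegral.integral_const, intervalIntegral.integral_const_mul, integral_id,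
      smul_eq_mul]
    ring
  all_goals apply Continuous.intervalIntegrable; fun_prop

theorem int_F {p q : ℝ} (hp0 : 0 ≤ p) (hp1 : p ≤ 1) (hq0 : 0 ≤ q) (hq1 : q ≤ 1) :
    ENNReal.ofReal ((p + q) / 2) ≤ ∫⁻ t in Set.Ioc (0 : ℝ) 1, ENNReal.ofReal (F p q t) := by
  have hU : Set.Ioc (0 : ℝ) 1 = Set.Ioc 0 p ∪ Set.Ioc p 1 := (Set.Ioc_union_Ioc_eq_Ioc hp0 hp1).symm
  rw [hU, lintegral_union measurableSet_Ioc (Set.Ioc_disjoint_Ioc_of_le le_rfl)]
  have h1 : ENNReal.ofReal (p * (1 + q) / 2) ≤ ∫⁻ t in Set.Ioc 0 p, ENNReal.ofReal (F p q t) := by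
    rcases hp0.eq_or_lt with h | h
    · rw [← h]; simp
    have e : ∫⁻ t in Set.Ioc 0 p, ENNReal.ofReal (F p q t) =
        ∫⁻ t in Set.Ioc 0 p, ENNReal.ofReal (1 + (q - 1) / p * t) := by
      apply setLIntegral_congr_fun measurableSet_Ioc
      intro t ht
      show ENNReal.ofReal (F p q t) = _
      rw [F, if_pos ht.2]
    rw [e, ← ofReal_integral_eq_lintegral_ofReal]
    · rw [← intervalIntegral.integral_of_le hp0, int_aff]
      apply ENNReal.ofReal_le_ofReal
      apply le_of_eq
      field_simp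
      ring
    · apply Continuous.integrableOn_Ioc
      fun_prop
    · refine (ae_restrict_iff' measurableSet_Ioc).2 (Eventually.of_forall fun t ht => ?_)
      have := F_nonneg hp0 hp1 hq0 hq1 ht.1 (ht.2.trans hp1)
      rw [F, if_pos ht.2] at this
      exact this
  have h2 : ENNReal.ofReal ((1 - p) * q / 2) ≤ ∫⁻ t in Set.Ioc p 1, ENNReal.ofReal (F p q t) := by
    rcases hp1.eq_or_lt with h | h
    · rw [h]; simp
    have e : ∫⁻ t in Set.Ioc p 1, ENNReal.ofReal (F p q t) =
        ∫⁻ t in Set.Ioc p 1, ENNReal.ofReal (q / (1 - p) + -(q / (1 - p)) * t) := by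
      apply setLIntegral_congr_fun measurableSet_Ioc
      intro t ht
      show ENNReal.ofReal (F p q t) = _
      rw [F, if_neg (not_le.2 ht.1)]
      congr 1
      ring
    rw [e, ← ofReal_integral_eq_lintegral_ofReal]
    · rw [← intervalIntegral.integral_of_le hp1, int_aff]
      apply ENNReal.ofReal_le_ofReal
      apply le_of_eq
      have h3 : 1 - p ≠ 0 := by linarith
      field_simp
      ring
    · apply Continuous.integrableOn_Ioc
      fun_prop
    · refine (ae_restrict_iff' measurableSet_Ioc).2 (Eventually.of_forall fun t ht => ?_)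
      have := F_nonneg hp0 hp1 hq0 hq1 (lt_of_le_of_lt hp0 ht.1) ht.2
      rw [F, if_neg (not_le.2 ht.1)] at this
      show 0 ≤ q / (1 - p) + -(q / (1 - p)) * t
      linarith
  refine le_trans ?_ (add_le_add h1 h2)
  rw [← ENNReal.ofReal_add (by positivity) (by
    have : 0 ≤ (1 - p) * q := mul_nonneg (by linarith) hq0
    linarith)]
  apply ENNReal.ofReal_le_ofReal
  linarith

/-- the points of the sides of the quadrangle -/
theorem side (hN : Nrm N) {p q ε : ℝ} (hp0 : 0 ≤ p) (hp1 : p ≤ 1)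
    (h1 : N ![0, ε] ≤ 1) (h2 : N ![p, ε * q] ≤ 1) {t : ℝ} (ht0 : 0 < t) (ht1 : t ≤ 1) :
    N ![t, ε * F p q t] ≤ 1 := by
  have conv : ∀ (x y : P2) (u v : ℝ), 0 ≤ u → 0 ≤ v → u + v = 1 → N x ≤ 1 → N y ≤ 1 →
      N (u • x + v • y) ≤ 1 := by
    intro x y u v hu hv huv hx hy
    have h3 := map_add_le_add N (u • x) (v • y)
    rw [map_smul_eq_mul, map_smul_eq_mul, Real.norm_eq_abs, Real.norm_eq_abs, abs_of_nonneg hu,
      abs_of_nonneg hv] at h3
    nlinarith
  unfold F
  split_ifs with h
  · have hp : 0 < p := lt_of_lt_of_le ht0 h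
    have h3 := conv ![0, ε] ![p, ε * q] (1 - t / p) (t / p)
      (by rw [sub_nonneg, div_le_one hp]; exact h) (by positivity) (by ring) h1 h2
    convert h3 using 2
    funext i
    fin_cases i
    · show t = (1 - t / p) * 0 + t / p * p
      field_simp
      ring
    · show ε * (1 + (q - 1) / p * t) = (1 - t / p) * ε + t / p * (ε * q)
      ring
  · have hp : p < t := not_le.1 h
    have hp' : 0 < 1 - p := by linarith
    have h3 := conv ![p, ε * q] ![1, 0] ((1 - t) / (1 - p)) ((t - p) / (1 - p))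
      (div_nonneg (by linarith) hp'.le) (div_nonneg (by linarith) hp'.le)
      (by field_simp; ring) h2 hN.e0
    convert h3 using 2
    funext i
    fin_cases i
    · show t = (1 - t) / (1 - p) * p + (t - p) / (1 - p) * 1
      field_simp
      ring
    · show ε * (q / (1 - p) * (1 - t)) = (1 - t) / (1 - p) * (ε * q) + (t - p) / (1 - p) * 0
      field_simp
      ring

theorem neg_vec (x y : ℝ) : (![-x, -y] : P2) = -![x, y] := by
  funext i
  fin_cases i <;> rfl

/-- the area of a norm whose ball contains two points in the first and the second quadrant -/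
theorem area_low (hN : Nrm N) {p q v r : ℝ} (hp0 : 0 ≤ p) (hp1 : p ≤ 1) (hq0 : 0 ≤ q) (hq1 : q ≤ 1)
    (hv0 : 0 ≤ v) (hv1 : v ≤ 1) (hr0 : 0 ≤ r) (hr1 : r ≤ 1) (hP : N ![p, q] ≤ 1)
    (hQ : N ![-v, r] ≤ 1) : Area N (p + q + (v + r)) := by
  unfold Area
  have hm : MeasurableSet {x : P2 | N x ≤ 1} := (ball_compact hN).measurableSet
  rw [slices2 hm]
  set H : ℝ → ℝ≥0∞ := (Set.Ioc (0 : ℝ) 1).indicator
    (fun t => ENNReal.ofReal (F p q t) + ENNReal.ofReal (F v r t)) with hH
  have hF1 : Measurable fun t => ENNReal.ofReal (F p q t) := (F_meas p q).ennreal_ofReal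
  have hF2 : Measurable fun t => ENNReal.ofReal (F v r t) := (F_meas v r).ennreal_ofReal
  have hHm : Measurable H := (hF1.add hF2).indicator measurableSet_Ioc
  have hHi : ENNReal.ofReal ((p + q) / 2 + (v + r) / 2) ≤ ∫⁻ t, H t := by
    rw [hH, lintegral_indicator measurableSet_Ioc, lintegral_add_left hF1,
      ENNReal.ofReal_add (by positivity) (by positivity)]
    exact add_le_add (int_F hp0 hp1 hq0 hq1) (int_F hv0 hv1 hr0 hr1)
  -- the sections
  have conv : ∀ t y1 y2 y : ℝ, N ![t, y1] ≤ 1 → N ![t, y2] ≤ 1 → y1 ≤ y → y ≤ y2 →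
      N ![t, y] ≤ 1 := by
    intro t y1 y2 y h1 h2 h3 h4
    rcases (h3.trans h4).eq_or_lt with h | h
    · have : y = y1 := le_antisymm (by rw [h]; exact h4) h3
      rw [this]; exact h1
    · have h0 : 0 < y2 - y1 := by linarith
      have h5 := map_add_le_add N (((y2 - y) / (y2 - y1)) • ![t, y1])
        (((y - y1) / (y2 - y1)) • ![t, y2])
      rw [map_smul_eq_mul, map_smul_eq_mul, Real.norm_eq_abs, Real.norm_eq_abs,
        abs_of_nonneg (div_nonneg (by linarith) h0.le),
        abs_of_nonneg (div_nonneg (by linarith) h0.le)] at h5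
      have e : ((y2 - y) / (y2 - y1)) • ![t, y1] + ((y - y1) / (y2 - y1)) • ![t, y2] =
          (![t, y] : P2) := by
        funext i
        fin_cases i
        · show (y2 - y) / (y2 - y1) * t + (y - y1) / (y2 - y1) * t = t
          field_simp; ring
        · show (y2 - y) / (y2 - y1) * y1 + (y - y1) / (y2 - y1) * y2 = y
          field_simp; ring
      rw [e] at h5
      have h6 : (y2 - y) / (y2 - y1) + (y - y1) / (y2 - y1) = 1 := by field_simp; ring
      have h7 : 0 ≤ (y2 - y) / (y2 - y1) := div_nonneg (by linarith) h0.le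
      have h8 : 0 ≤ (y - y1) / (y2 - y1) := div_nonneg (by linarith) h0.le
      nlinarith
  have hup : ∀ t, 0 < t → t ≤ 1 → N ![t, F p q t] ≤ 1 := by
    intro t h0 h1
    have h2 := side hN (p := p) (q := q) (ε := 1) hp0 hp1 (by simpa using hN.e1)
      (by simpa using hP) h0 h1
    rwa [one_mul] at h2
  have hdn : ∀ t, 0 < t → t ≤ 1 → N ![t, -F v r t] ≤ 1 := by
    intro t h0 h1
    have h2 := side hN (p := v) (q := r) (ε := -1) hv0 hv1 (by
      have e : (![0, -1] : P2) = -![0, 1] := by rw [← neg_vec, neg_zero]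
      rw [e, map_neg_eq_map]
      exact hN.e1) (by
      have e : (![v, -1 * r] : P2) = -![-v, r] := by rw [← neg_vec, neg_neg, neg_one_mul]
      rw [e, map_neg_eq_map]
      exact hQ) h0 h1
    rwa [neg_one_mul] at h2
  have hsec : ∀ t, H t + H (-t) ≤ volume {y : ℝ | (![t, y] : P2) ∈ {x : P2 | N x ≤ 1}} := by
    intro t
    by_cases ht : t ∈ Set.Ioc (0 : ℝ) 1
    · have ht' : -t ∉ Set.Ioc (0 : ℝ) 1 := fun h => by
        have h1 := h.1
        have h2 := ht.1
        linarith
      rw [hH, Set.indicator_of_mem ht, Set.indicator_of_notMem ht', add_zero]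
      have f0 := F_nonneg hp0 hp1 hq0 hq1 ht.1 ht.2
      have g0 := F_nonneg hv0 hv1 hr0 hr1 ht.1 ht.2
      rw [← ENNReal.ofReal_add f0 g0]
      have e : F p q t + F v r t = F p q t - -F v r t := by ring
      rw [e, ← Real.volume_Icc]
      apply measure_mono
      intro y hy
      exact conv t _ _ y (hdn t ht.1 ht.2) (hup t ht.1 ht.2) hy.1 hy.2
    · by_cases ht' : -t ∈ Set.Ioc (0 : ℝ) 1
      · rw [hH, Set.indicator_of_notMem ht, Set.indicator_of_mem ht', zero_add]
        have f0 := F_nonneg hp0 hp1 hq0 hq1 ht'.1 ht'.2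
        have g0 := F_nonneg hv0 hv1 hr0 hr1 ht'.1 ht'.2
        rw [← ENNReal.ofReal_add f0 g0]
        have e : F p q (-t) + F v r (-t) = F v r (-t) - -F p q (-t) := by ring
        rw [e, ← Real.volume_Icc]
        apply measure_mono
        intro y hy
        have h1 : N ![t, -F p q (-t)] ≤ 1 := by
          have e2 : (![t, -F p q (-t)] : P2) = -![-t, F p q (-t)] := by
            rw [← neg_vec, neg_neg]
          rw [e2, map_neg_eq_map]
          exact hup (-t) ht'.1 ht'.2
        have h2 : N ![t, F v r (-t)] ≤ 1 := by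
          have e2 : (![t, F v r (-t)] : P2) = -![-t, -F v r (-t)] := by
            rw [← neg_vec, neg_neg, neg_neg]
          rw [e2, map_neg_eq_map]
          exact hdn (-t) ht'.1 ht'.2
        exact conv t _ _ y h1 h2 hy.1 hy.2
      · rw [hH, Set.indicator_of_notMem ht, Set.indicator_of_notMem ht', add_zero]
        exact bot_le
  refine le_trans ?_ (lintegral_mono hsec)
  rw [lintegral_add_left hHm, lintegral_neg_eq_self (fun t => H t)]
  refine le_trans ?_ (add_le_add hHi hHi)
  rw [← ENNReal.ofReal_add (by positivity) (by positivity)]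
  apply ENNReal.ofReal_le_ofReal
  linarith

end Pool.Agent.U338.HS
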