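import Pool.Agent.U338.HS.D

/-!
# Bodies with homothetic centrally symmetric sections: the normalised case
-/

set_option autoImplicit false

namespace Pool.Agent.U338.HS

open MeasureTheory Filter Topology
open scoped ENNReal Pointwise
open Pool.Agent.H349R2.Tet Pool.Agent.TH219.DL

variable {N : Seminorm ℝ P2}

/-- the circumscribed square has the least area of all circumscribed parallelograms -/
def Least (N : Seminorm ℝ P2) : Prop := ∀ f g : P2, (∀ x : P2, |f 0 * x 0 + f 1 * x 1| ≤ N x) →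
  (∀ x : P2, |g 0 * x 0 + g 1 * x 1| ≤ N x) → f 0 * g 1 - f 1 * g 0 ≤ 1

theorem norm_lattice (hN : Nrm N) (hL : Least N) {K : Set V} (hK : IsCompact K) (hc : Convex ℝ K)
    (hne : (interior K).Nonempty) (hr : IsHom N K) :
    ∃ b : Fin 3 → V, Packs K b ∧ ENNReal.ofReal (cst * |dt b|) ≤ volume K := by
  obtain ⟨P, hP, hPs⟩ := supp hN 1 1
  obtain ⟨Q, hQ, hQs⟩ := supp hN (-1) 1
  obtain ⟨X, hX, hXs⟩ := supp hN 1 0.46
  obtain ⟨Y, hY, hYs⟩ := supp hN (-0.46) 1
  obtain ⟨a, ha⟩ : ∃ a : ℝ, a = 1 * P 0 + 1 * P 1 := ⟨_, rfl⟩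
  obtain ⟨b, hb⟩ : ∃ b : ℝ, b = -1 * Q 0 + 1 * Q 1 := ⟨_, rfl⟩
  obtain ⟨h1, hh1⟩ : ∃ h : ℝ, h = 1 * X 0 + 0.46 * X 1 := ⟨_, rfl⟩
  obtain ⟨h2, hh2⟩ : ∃ h : ℝ, h = -0.46 * Y 0 + 1 * Y 1 := ⟨_, rfl⟩
  rw [← ha] at hPs
  rw [← hb] at hQs
  rw [← hh1] at hXs
  rw [← hh2] at hYs
  have P0 := (abs_le.1 ((hN.c0 P).trans hP))
  have P1 := (abs_le.1 ((hN.c1 P).trans hP))
  have Q0 := (abs_le.1 ((hN.c0 Q).trans hQ))
  have Q1 := (abs_le.1 ((hN.c1 Q).trans hQ))
  have X0 := (abs_le.1 ((hN.c0 X).trans hX))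
  have X1 := (abs_le.1 ((hN.c1 X).trans hX))
  have Y0 := (abs_le.1 ((hN.c0 Y).trans hY))
  have Y1 := (abs_le.1 ((hN.c1 Y).trans hY))
  -- the first coordinates of support numbers
  have nonneg : ∀ {c p q : ℝ}, (∀ y : P2, |p * y 0 + q * y 1| ≤ c * N y) → |p| ≤ c := by
    intro c p q h
    have h3 := h ![1, 0]
    rw [hN.e0', mul_one] at h3
    simpa using h3
  have ha1 : 1 ≤ a := by simpa using nonneg hPs
  have hb1 : 1 ≤ b := by simpa using nonneg hQs
  have hh10 : 0 ≤ h1 := (abs_nonneg _).trans (nonneg hXs)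
  have hh20 : 0 ≤ h2 := (abs_nonneg _).trans (nonneg hYs)
  have ha2 : a ≤ 2 := by linarith
  have hb2 : b ≤ 2 := by linarith
  have app : ∀ {c p q : ℝ}, 0 ≤ c → (∀ y : P2, |p * y 0 + q * y 1| ≤ c * N y) → ∀ {z : P2},
      N z ≤ 1 → p * z 0 + q * z 1 ≤ c := by
    intro c p q hc h z hz
    have h3 := (le_abs_self _).trans (h z)
    have h4 := mul_le_mul_of_nonneg_left hz hc
    linarith
  have e1 := app hh10 hXs hP
  have e2 := app hh20 hYs hQ
  have e3 := app (by linarith) hPs hX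
  have e4 := app (by linarith) hQs hY
  have l1 : a - 1 + 0.46 ≤ h1 := by linarith
  have u1 : h1 ≤ 1 + 0.46 * (a - 1) := by linarith
  have l2 : b - 1 + 0.46 ≤ h2 := by linarith
  have u2 : h2 ≤ 1 + 0.46 * (b - 1) := by linarith
  have ha0 : 0 < a := by linarith
  have hb0 : 0 < b := by linarith
  have hab : 2 ≤ a * b := by
    have h := hL ![1 / a, 1 / a] ![-(1 / b), 1 / b] (fun x => ?_) (fun x => ?_)
    · have e : (![1 / a, 1 / a] : P2) 0 * (![-(1 / b), 1 / b] : P2) 1 -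
        (![1 / a, 1 / a] : P2) 1 * (![-(1 / b), 1 / b] : P2) 0 = 2 / (a * b) := by
        show 1 / a * (1 / b) - 1 / a * (-(1 / b)) = _
        field_simp
        norm_num
      rw [e, div_le_one (by positivity)] at h
      exact h
    · have e : (![1 / a, 1 / a] : P2) 0 * x 0 + (![1 / a, 1 / a] : P2) 1 * x 1 =
        (1 * x 0 + 1 * x 1) / a := by
        show 1 / a * x 0 + 1 / a * x 1 = _
        ring
      rw [e, abs_div, abs_of_pos ha0, div_le_iff₀ ha0, mul_comm (N x)]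
      exact hPs x
    · have e : (![-(1 / b), 1 / b] : P2) 0 * x 0 + (![-(1 / b), 1 / b] : P2) 1 * x 1 =
        (-1 * x 0 + 1 * x 1) / b := by
        show -(1 / b) * x 0 + 1 / b * x 1 = _
        ring
      rw [e, abs_div, abs_of_pos hb0, div_le_iff₀ hb0, mul_comm (N x)]
      exact hQs x
  have hPe : (![P 0, P 1] : P2) = P := by
    funext i
    fin_cases i <;> rfl
  have hQe : (![-(-(Q 0)), Q 1] : P2) = Q := by
    funext i
    fin_cases i
    · exact neg_neg _
    · rfl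
  have har : Area N (a + b) := by
    have h := area_low hN (p := P 0) (q := P 1) (v := -(Q 0)) (r := Q 1) (by linarith) (by linarith)
      (by linarith) (by linarith) (by linarith) (by linarith) (by linarith) (by linarith)
      (by rw [hPe]; exact hP) (by rw [hQe]; exact hQ)
    have e : P 0 + P 1 + (-(Q 0) + Q 1) = a + b := by rw [ha, hb]; ring
    rwa [e] at h
  rcases le_or_gt (a + b) (1.1214 * (a * b)) with h | h
  · refine rot hN ha1 ha2 hb1 hb2 har h (h1 := h1) (h2 := h2) (fun x => ?_) (fun x => ?_) l1 u1 l2 u2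
      hK hc hne hr
    · have := hXs x
      rwa [one_mul] at this
    · have := hYs x
      have e : -0.46 * x 0 + 1 * x 1 = x 1 - 0.46 * x 0 := by ring
      rwa [e] at this
  · refine diag hN ha1 ha2 hb1 hb2 hab (fun x => ?_) (fun x => ?_) har h hK hc hne hr
    · have := hPs x
      rwa [one_mul, one_mul] at this
    · have := hQs x
      have e : -1 * x 0 + 1 * x 1 = x 1 - x 0 := by ring
      rwa [e] at this

end Pool.Agent.U338.HS
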