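import Pool.Agent.U338.HS.E

/-!
# Bodies with homothetic centrally symmetric sections: normalisation
-/

set_option autoImplicit false

namespace Pool.Agent.U338.HS

open MeasureTheory Filter Topology
open scoped ENNReal Pointwise
open Pool.Agent.H349R2.Tet Pool.Agent.TH219.DL

/-- a centrally symmetric convex body in the plane -/
def SymBody (S : Set P2) : Prop :=
  IsCompact S ∧ Convex ℝ S ∧ (interior S).Nonempty ∧ ∀ x ∈ S, -x ∈ S

/-- every nonempty section of `K` orthogonal to the first coordinate axis is homothetic to `S`, with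
centre on that axis -/
def Sections (S : Set P2) (K : Set V) : Prop :=
  ∀ t : ℝ, {x : P2 | ![t, x 0, x 1] ∈ K} = ∅ ∨
    ∃ r : ℝ, 0 ≤ r ∧ {x : P2 | ![t, x 0, x 1] ∈ K} = r • S

theorem zero_mem_interior {S : Set P2} (hS : SymBody S) : (0 : P2) ∈ interior S := by
  obtain ⟨-, hc, ⟨x, hx⟩, hs⟩ := hS
  have h1 : -x ∈ interior S := by
    have e : (Homeomorph.neg P2) '' S = S := by
      ext y
      constructor
      · rintro ⟨z, hz, rfl⟩
        exact hs z hz
      · intro hy
        exact ⟨-y, hs y hy, neg_neg y⟩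
    have h2 : -x ∈ (Homeomorph.neg P2) '' interior S := ⟨x, hx, rfl⟩
    rwa [Homeomorph.image_interior, e] at h2
  have h2 := hc.interior hx h1 (a := 1 / 2) (b := 1 / 2) (by norm_num) (by norm_num) (by norm_num)
  rwa [smul_neg, add_neg_cancel] at h2

/-- the scalar product -/
def ip (f x : P2) : ℝ := f 0 * x 0 + f 1 * x 1

/-- the data of the normalisation -/
theorem normal {S : Set P2} (hS : SymBody S) : ∃ (f g : P2) (G : Seminorm ℝ P2),
    0 < f 0 * g 1 - f 1 * g 0 ∧ (∀ x, G x ≤ 1 ↔ x ∈ S) ∧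
    (∀ x, |ip f x| ≤ G x) ∧ (∀ x, |ip g x| ≤ G x) ∧
    (∀ h k : P2, (∀ x, |ip h x| ≤ G x) → (∀ x, |ip k x| ≤ G x) →
      h 0 * k 1 - h 1 * k 0 ≤ f 0 * g 1 - f 1 * g 0) ∧
    (∀ x, (∀ h : P2, (∀ y, |ip h y| ≤ G y) → ip h x ≤ 1) → x ∈ S) := by
  have h0 := zero_mem_interior hS
  have h0' : (0 : P2) ∈ S := interior_subset h0
  have hnhds : S ∈ 𝓝 (0 : P2) := mem_interior_iff_mem_nhds.1 h0
  obtain ⟨hSc, hc, -, hs⟩ := hS
  have hbal : Balanced ℝ S := (balanced_iff_neg_mem hc).2 fun x hx => hs x hx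
  obtain ⟨G, hG⟩ : ∃ G : Seminorm ℝ P2, G = gaugeSeminorm hbal hc (absorbent_nhds_zero hnhds) :=
    ⟨_, rfl⟩
  have hGS : ∀ x, G x ≤ 1 ↔ x ∈ S := by
    intro x
    rw [hG]
    show gauge S x ≤ 1 ↔ x ∈ S
    rw [gauge_le_one_iff_mem_closure hc hnhds, hSc.isClosed.closure_eq]
  -- the polar body
  obtain ⟨Q, hQ⟩ : ∃ Q : Set P2, Q = {f : P2 | ∀ x ∈ S, ip f x ≤ 1} := ⟨_, rfl⟩
  have hQm : ∀ f, f ∈ Q ↔ ∀ x ∈ S, ip f x ≤ 1 := fun f => by rw [hQ]; rfl
  have hQG : ∀ f, f ∈ Q ↔ ∀ x, |ip f x| ≤ G x := by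
    intro f
    rw [hQm]
    constructor
    · intro h x
      have key : ∀ y : P2, ip f y ≤ G y := by
        intro y
        apply le_of_forall_gt_imp_ge_of_dense
        intro r hr
        have hr0 : 0 < r := lt_of_le_of_lt (apply_nonneg G y) hr
        have h1 : r⁻¹ • y ∈ S := by
          rw [← hGS, map_smul_eq_mul, Real.norm_eq_abs, abs_of_pos (by positivity),
            inv_mul_le_iff₀ hr0, mul_one]
          exact hr.le
        have h2 := h _ h1
        have h3 : ip f (r⁻¹ • y) = r⁻¹ * ip f y := by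
          unfold ip
          simp only [Pi.smul_apply, smul_eq_mul]
          ring
        rw [h3, inv_mul_le_iff₀ hr0, mul_one] at h2
        exact h2
      rw [abs_le]
      constructor
      · have h1 := key (-x)
        rw [map_neg_eq_map] at h1
        have h2 : ip f (-x) = -ip f x := by
          unfold ip
          simp only [Pi.neg_apply]
          ring
        linarith
      · exact key x
    · intro h x hx
      exact (le_abs_self _).trans ((h x).trans ((hGS x).2 hx))
  have hcont : ∀ x : P2, Continuous fun f : P2 => ip f x := by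
    intro x
    unfold ip
    fun_prop
  obtain ⟨ε, hε, hball⟩ := Metric.nhds_basis_closedBall.mem_iff.1 hnhds
  obtain ⟨M, hM⟩ := hSc.isBounded.exists_norm_le
  have hQc : IsCompact Q := by
    apply Metric.isCompact_of_isClosed_isBounded
    · have e : Q = ⋂ x ∈ S, {f : P2 | ip f x ≤ 1} := by
        ext f
        rw [hQm]
        simp
      rw [e]
      exact isClosed_biInter fun x _ => isClosed_le (hcont x) continuous_const
    · apply (Metric.isBounded_closedBall (x := (0 : P2)) (r := 1 / ε)).subset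
      intro f hf
      rw [hQm] at hf
      rw [mem_closedBall_zero_iff, pi_norm_le_iff_of_nonneg (by positivity)]
      have key : ∀ p q : ℝ, |p| ≤ 1 → |q| ≤ 1 → f 0 * (ε * p) + f 1 * (ε * q) ≤ 1 := by
        intro p q hp hq
        have h1 : (![ε * p, ε * q] : P2) ∈ S := by
          apply hball
          rw [mem_closedBall_zero_iff, pi_norm_le_iff_of_nonneg hε.le]
          intro i
          rw [Real.norm_eq_abs]
          fin_cases i
          · show |ε * p| ≤ ε
            rw [abs_mul, abs_of_pos hε]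
            nlinarith
          · show |ε * q| ≤ ε
            rw [abs_mul, abs_of_pos hε]
            nlinarith
        exact hf _ h1
      have k1 := key 1 0 (by simp) (by simp)
      have k2 := key (-1) 0 (by simp) (by simp)
      have k3 := key 0 1 (by simp) (by simp)
      have k4 := key 0 (-1) (by simp) (by simp)
      intro i
      rw [Real.norm_eq_abs, le_div_iff₀ hε]
      fin_cases i
      · show |f 0| * ε ≤ 1
        have e : |f 0| * ε = |f 0 * ε| := by rw [abs_mul, abs_of_pos hε]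
        rw [e, abs_le]
        constructor <;> linarith
      · show |f 1| * ε ≤ 1
        have e : |f 1| * ε = |f 1 * ε| := by rw [abs_mul, abs_of_pos hε]
        rw [e, abs_le]
        constructor <;> linarith
  have hQ0 : (0 : P2) ∈ Q := by
    rw [hQm]
    intro x _
    unfold ip
    simp
  obtain ⟨⟨f, g⟩, hfg, hmax⟩ := (hQc.prod hQc).exists_isMaxOn ⟨(0, 0), hQ0, hQ0⟩
    (f := fun p : P2 × P2 => p.1 0 * p.2 1 - p.1 1 * p.2 0) (by fun_prop)
  obtain ⟨hf, hg⟩ := hfg
  have hmax' : ∀ h ∈ Q, ∀ k ∈ Q, h 0 * k 1 - h 1 * k 0 ≤ f 0 * g 1 - f 1 * g 0 :=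
    fun h hh k hk => hmax (a := (h, k)) ⟨hh, hk⟩
  have hD : 0 < f 0 * g 1 - f 1 * g 0 := by
    obtain ⟨m, hm⟩ : ∃ m : ℝ, m = max M 1 := ⟨_, rfl⟩
    have hm0 : 0 < m := by rw [hm]; exact lt_of_lt_of_le one_pos (le_max_right _ _)
    have hx : ∀ x ∈ S, ∀ i, |x i| ≤ m := by
      intro x hx i
      have h1 := (norm_le_pi_norm x i).trans ((hM x hx).trans (le_max_left M 1))
      rw [Real.norm_eq_abs, ← hm] at h1
      exact h1
    have h1 : (![1 / m, 0] : P2) ∈ Q := by
      rw [hQm]
      intro x hx'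
      show 1 / m * x 0 + 0 * x 1 ≤ 1
      have := (abs_le.1 (hx x hx' 0)).2
      rw [zero_mul, add_zero, one_div_mul_eq_div, div_le_one hm0]
      exact this
    have h2 : (![0, 1 / m] : P2) ∈ Q := by
      rw [hQm]
      intro x hx'
      show 0 * x 0 + 1 / m * x 1 ≤ 1
      have := (abs_le.1 (hx x hx' 1)).2
      rw [zero_mul, zero_add, one_div_mul_eq_div, div_le_one hm0]
      exact this
    have h3 := hmax' _ h1 _ h2
    have h4 : (![1 / m, 0] : P2) 0 * (![0, 1 / m] : P2) 1 -
        (![1 / m, 0] : P2) 1 * (![0, 1 / m] : P2) 0 = 1 / m * (1 / m) := by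
      show 1 / m * (1 / m) - 0 * 0 = _
      ring
    rw [h4] at h3
    have h5 : 0 < 1 / m * (1 / m) := by positivity
    linarith
  refine ⟨f, g, G, hD, hGS, (hQG f).1 hf, (hQG g).1 hg,
    fun h k hh hk => hmax' h ((hQG h).2 hh) k ((hQG k).2 hk), fun x hx => ?_⟩
  by_contra hxS
  obtain ⟨φ, u, hφ1, hφ2⟩ := geometric_hahn_banach_closed_point hc hSc.isClosed hxS
  have hu : 0 < u := by
    have := hφ1 0 h0'
    rwa [map_zero] at this
  have hφe : ∀ y : P2, φ y = φ ![1, 0] * y 0 + φ ![0, 1] * y 1 := by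
    intro y
    have e : y = y 0 • ![1, 0] + y 1 • ![0, 1] := by
      funext i
      fin_cases i <;> simp
    conv_lhs => rw [e]
    rw [map_add, map_smul, map_smul, smul_eq_mul, smul_eq_mul]
    ring
  have hh : (![φ ![1, 0] / u, φ ![0, 1] / u] : P2) ∈ Q := by
    rw [hQm]
    intro y hy
    have h1 := hφ1 y hy
    have h2 : ip ![φ ![1, 0] / u, φ ![0, 1] / u] y = φ y / u := by
      show φ ![1, 0] / u * y 0 + φ ![0, 1] / u * y 1 = _
      rw [hφe y]
      ring
    rw [h2, div_le_one hu]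
    exact h1.le
  have h1 := hx _ ((hQG _).1 hh)
  have h2 : ip ![φ ![1, 0] / u, φ ![0, 1] / u] x = φ x / u := by
    show φ ![1, 0] / u * x 0 + φ ![0, 1] / u * x 1 = _
    rw [hφe x]
    ring
  rw [h2, div_le_one hu] at h1
  linarith

/-- affine images -/
theorem aff_gen {K'' : Set V} (L : V ≃ₗ[ℝ] V) (p : V) (hB : Body ((fun x => L x + p) '' K''))
    (h : IsCompact K'' → Convex ℝ K'' → (interior K'').Nonempty →
      ∃ b : Fin 3 → V, Packs K'' b ∧ ENNReal.ofReal (cst * |dt b|) ≤ volume K'') :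
    ∃ b : Fin 3 → V, Packs ((fun x => L x + p) '' K'') b ∧
      ENNReal.ofReal (cst * |dt b|) ≤ volume ((fun x => L x + p) '' K'') := by
  obtain ⟨h1, h2, h3⟩ := hB
  -- the affine homeomorphism
  let Φ : V ≃ₜ V := L.toContinuousLinearEquiv.toHomeomorph.trans (Homeomorph.addRight p)
  have hΦ : (fun x => L x + p) = Φ := rfl
  have hK' : IsCompact K'' := by
    rw [hΦ] at h1
    exact Φ.isCompact_image.1 h1
  have hint : (interior K'').Nonempty := by
    rw [pack_interior_image] at h3
    exact h3.of_image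
  have hconv : Convex ℝ K'' := by
    intro x hx y hy a b ha hb hab
    obtain ⟨z, hz, hz'⟩ := h2 ⟨x, hx, rfl⟩ ⟨y, hy, rfl⟩ ha hb hab
    have e : a • (L x + p) + b • (L y + p) = L (a • x + b • y) + p := by
      rw [map_add, map_smul, map_smul, smul_add, smul_add]
      have : p = a • p + b • p := by rw [← add_smul, hab, one_smul]
      nth_rewrite 3 [this]
      abel
    have h4 : L z + p = L (a • x + b • y) + p := hz'.trans e
    have h5 : z = a • x + b • y := L.injective (add_right_cancel h4)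
    rw [← h5]
    exact hz
  obtain ⟨b, hb, hv⟩ := h hK' hconv hint
  have hb' := (packs_iff _ _).1 hb
  have hdet : LinearMap.det L.toLinearMap ≠ 0 := (LinearEquiv.isUnit_det' L).ne_zero
  refine ⟨fun i => L (b i), (packs_iff _ _).2 ⟨?_, ?_⟩, ?_⟩
  · rw [pack_dt_image]
    exact mul_ne_zero hdet hb'.1
  · intro u hu hu0 hov
    obtain ⟨s, rfl⟩ := L.surjective u
    refine hb'.2 s ((pack_lat_image L b s).1 hu) ?_ ((pack_Ov_image K'' L p s).1 hov)
    rintro rfl
    exact hu0 (map_zero L)
  · rw [pack_volume_image, pack_dt_image, abs_mul]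
    have e : cst * (|LinearMap.det L.toLinearMap| * |dt b|) =
        |LinearMap.det L.toLinearMap| * (cst * |dt b|) := by ring
    rw [e, ENNReal.ofReal_mul (abs_nonneg _)]
    gcongr

end Pool.Agent.U338.HS
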