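import Pool.Agent.U338.HS.G
import Pool.Agent.H349R2.Tet.Final3

/-!
# Bodies with homothetic centrally symmetric sections: the theorem
-/

set_option autoImplicit false

namespace Pool.Agent.U338.HS

open MeasureTheory Filter Topology
open scoped ENNReal Pointwise
open Pool.Agent.H349R2.Tet Pool.Agent.TH219.DL

/-- a linear map which is the identity on the axis -/
noncomputable def mkT (f g : P2) (hD : f 0 * g 1 - f 1 * g 0 ≠ 0) : V ≃ₗ[ℝ] V where
  toFun y := ![y 0, f 0 * y 1 + f 1 * y 2, g 0 * y 1 + g 1 * y 2]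
  invFun y := ![y 0, (g 1 * y 1 - f 1 * y 2) / (f 0 * g 1 - f 1 * g 0),
    (f 0 * y 2 - g 0 * y 1) / (f 0 * g 1 - f 1 * g 0)]
  map_add' x y := by
    funext i
    fin_cases i
    · rfl
    · show f 0 * (x 1 + y 1) + f 1 * (x 2 + y 2) = f 0 * x 1 + f 1 * x 2 + (f 0 * y 1 + f 1 * y 2)
      ring
    · show g 0 * (x 1 + y 1) + g 1 * (x 2 + y 2) = g 0 * x 1 + g 1 * x 2 + (g 0 * y 1 + g 1 * y 2)
      ring
  map_smul' c x := by
    funext i
    fin_cases i
    · rfl
    · show f 0 * (c * x 1) + f 1 * (c * x 2) = c * (f 0 * x 1 + f 1 * x 2)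
      ring
    · show g 0 * (c * x 1) + g 1 * (c * x 2) = c * (g 0 * x 1 + g 1 * x 2)
      ring
  left_inv y := by
    funext i
    fin_cases i
    · rfl
    · show (g 1 * (f 0 * y 1 + f 1 * y 2) - f 1 * (g 0 * y 1 + g 1 * y 2)) /
        (f 0 * g 1 - f 1 * g 0) = y 1
      rw [div_eq_iff hD]
      ring
    · show (f 0 * (g 0 * y 1 + g 1 * y 2) - g 0 * (f 0 * y 1 + f 1 * y 2)) /
        (f 0 * g 1 - f 1 * g 0) = y 2
      rw [div_eq_iff hD]
      ring
  right_inv y := by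
    funext i
    fin_cases i
    · rfl
    · show f 0 * ((g 1 * y 1 - f 1 * y 2) / (f 0 * g 1 - f 1 * g 0)) +
        f 1 * ((f 0 * y 2 - g 0 * y 1) / (f 0 * g 1 - f 1 * g 0)) = y 1
      rw [← mul_div_assoc, ← mul_div_assoc, ← add_div, div_eq_iff hD]
      ring
    · show g 0 * ((g 1 * y 1 - f 1 * y 2) / (f 0 * g 1 - f 1 * g 0)) +
        g 1 * ((f 0 * y 2 - g 0 * y 1) / (f 0 * g 1 - f 1 * g 0)) = y 2
      rw [← mul_div_assoc, ← mul_div_assoc, ← add_div, div_eq_iff hD]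
      ring

/-- the inverse in the plane -/
noncomputable def mkB (f g : P2) : P2 →ₗ[ℝ] P2 where
  toFun y := ![(g 1 * y 0 - f 1 * y 1) / (f 0 * g 1 - f 1 * g 0),
    (f 0 * y 1 - g 0 * y 0) / (f 0 * g 1 - f 1 * g 0)]
  map_add' x y := by
    funext i
    fin_cases i
    · show (g 1 * (x 0 + y 0) - f 1 * (x 1 + y 1)) / (f 0 * g 1 - f 1 * g 0) =
        (g 1 * x 0 - f 1 * x 1) / (f 0 * g 1 - f 1 * g 0) +
        (g 1 * y 0 - f 1 * y 1) / (f 0 * g 1 - f 1 * g 0)
      ring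
    · show (f 0 * (x 1 + y 1) - g 0 * (x 0 + y 0)) / (f 0 * g 1 - f 1 * g 0) =
        (f 0 * x 1 - g 0 * x 0) / (f 0 * g 1 - f 1 * g 0) +
        (f 0 * y 1 - g 0 * y 0) / (f 0 * g 1 - f 1 * g 0)
      ring
  map_smul' c x := by
    funext i
    fin_cases i
    · show (g 1 * (c * x 0) - f 1 * (c * x 1)) / (f 0 * g 1 - f 1 * g 0) =
        c * ((g 1 * x 0 - f 1 * x 1) / (f 0 * g 1 - f 1 * g 0))
      ring
    · show (f 0 * (c * x 1) - g 0 * (c * x 0)) / (f 0 * g 1 - f 1 * g 0) =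
        c * ((f 0 * x 1 - g 0 * x 0) / (f 0 * g 1 - f 1 * g 0))
      ring

/-- every body with homothetic centrally symmetric sections is the linear image of a normalised one -/
theorem reduce {S : Set P2} (hS : SymBody S) {K : Set V} (hK : Sections S K) :
    ∃ (N : Seminorm ℝ P2) (T : V ≃ₗ[ℝ] V), Nrm N ∧ Least N ∧ IsHom N (T '' K) := by
  obtain ⟨f, g, G, hD, hGS, hf, hg, hmax, hsep⟩ := normal hS
  obtain ⟨D, hDD⟩ : ∃ D : ℝ, D = f 0 * g 1 - f 1 * g 0 := ⟨_, rfl⟩
  have hD0 : f 0 * g 1 - f 1 * g 0 ≠ 0 := hD.ne'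
  have hipf : ∀ y : P2, ip f (mkB f g y) = y 0 := by
    intro y
    show f 0 * ((g 1 * y 0 - f 1 * y 1) / (f 0 * g 1 - f 1 * g 0)) +
      f 1 * ((f 0 * y 1 - g 0 * y 0) / (f 0 * g 1 - f 1 * g 0)) = y 0
    rw [← mul_div_assoc, ← mul_div_assoc, ← add_div, div_eq_iff hD0]
    ring
  have hipg : ∀ y : P2, ip g (mkB f g y) = y 1 := by
    intro y
    show g 0 * ((g 1 * y 0 - f 1 * y 1) / (f 0 * g 1 - f 1 * g 0)) +
      g 1 * ((f 0 * y 1 - g 0 * y 0) / (f 0 * g 1 - f 1 * g 0)) = y 1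
    rw [← mul_div_assoc, ← mul_div_assoc, ← add_div, div_eq_iff hD0]
    ring
  refine ⟨G.comp (mkB f g), mkT f g hD0, ⟨?_, ?_, ?_, ?_⟩, ?_, ?_⟩
  · show G (mkB f g ![1, 0]) ≤ 1
    rw [hGS]
    apply hsep
    intro h hh
    have e : ip h (mkB f g ![1, 0]) = (h 0 * g 1 - h 1 * g 0) / (f 0 * g 1 - f 1 * g 0) := by
      show h 0 * ((g 1 * 1 - f 1 * 0) / (f 0 * g 1 - f 1 * g 0)) +
        h 1 * ((f 0 * 0 - g 0 * 1) / (f 0 * g 1 - f 1 * g 0)) = _
      ring
    rw [e, div_le_one hD]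
    exact hmax h g hh hg
  · show G (mkB f g ![0, 1]) ≤ 1
    rw [hGS]
    apply hsep
    intro h hh
    have e : ip h (mkB f g ![0, 1]) = (f 0 * h 1 - f 1 * h 0) / (f 0 * g 1 - f 1 * g 0) := by
      show h 0 * ((g 1 * 0 - f 1 * 1) / (f 0 * g 1 - f 1 * g 0)) +
        h 1 * ((f 0 * 1 - g 0 * 0) / (f 0 * g 1 - f 1 * g 0)) = _
      ring
    rw [e, div_le_one hD]
    exact hmax f h hf hh
  · intro y
    rw [← hipf y]
    exact hf _
  · intro y
    rw [← hipg y]
    exact hg _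
  · intro h k hh hk
    have pull : ∀ h : P2, (∀ x : P2, |h 0 * x 0 + h 1 * x 1| ≤ (G.comp (mkB f g)) x) →
        ∀ x, |ip ![h 0 * f 0 + h 1 * g 0, h 0 * f 1 + h 1 * g 1] x| ≤ G x := by
      intro h hh x
      have h1 := hh ![ip f x, ip g x]
      have e1 : (G.comp (mkB f g)) ![ip f x, ip g x] = G x := by
        show G (mkB f g ![ip f x, ip g x]) = G x
        congr 1
        funext i
        fin_cases i
        · show (g 1 * (f 0 * x 0 + f 1 * x 1) - f 1 * (g 0 * x 0 + g 1 * x 1)) /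
            (f 0 * g 1 - f 1 * g 0) = x 0
          rw [div_eq_iff hD0]
          ring
        · show (f 0 * (g 0 * x 0 + g 1 * x 1) - g 0 * (f 0 * x 0 + f 1 * x 1)) /
            (f 0 * g 1 - f 1 * g 0) = x 1
          rw [div_eq_iff hD0]
          ring
      rw [e1] at h1
      have e2 : ip ![h 0 * f 0 + h 1 * g 0, h 0 * f 1 + h 1 * g 1] x =
          h 0 * (![ip f x, ip g x] : P2) 0 + h 1 * (![ip f x, ip g x] : P2) 1 := by
        show (h 0 * f 0 + h 1 * g 0) * x 0 + (h 0 * f 1 + h 1 * g 1) * x 1 =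
          h 0 * (f 0 * x 0 + f 1 * x 1) + h 1 * (g 0 * x 0 + g 1 * x 1)
        ring
      rw [e2]
      exact h1
    have h1 := hmax _ _ (pull h hh) (pull k hk)
    have e : (![h 0 * f 0 + h 1 * g 0, h 0 * f 1 + h 1 * g 1] : P2) 0 *
        (![k 0 * f 0 + k 1 * g 0, k 0 * f 1 + k 1 * g 1] : P2) 1 -
        (![h 0 * f 0 + h 1 * g 0, h 0 * f 1 + h 1 * g 1] : P2) 1 *
        (![k 0 * f 0 + k 1 * g 0, k 0 * f 1 + k 1 * g 1] : P2) 0 =
        (h 0 * k 1 - h 1 * k 0) * (f 0 * g 1 - f 1 * g 0) := by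
      show (h 0 * f 0 + h 1 * g 0) * (k 0 * f 1 + k 1 * g 1) -
        (h 0 * f 1 + h 1 * g 1) * (k 0 * f 0 + k 1 * g 0) = _
      ring
    rw [e] at h1
    by_contra hcon
    have h2 : 1 < h 0 * k 1 - h 1 * k 0 := not_le.1 hcon
    nlinarith
  · rintro _ ⟨y, hy, rfl⟩ z hz0 hz
    refine ⟨(mkT f g hD0).symm z, ?_, LinearEquiv.apply_symm_apply _ _⟩
    have hz' : G (mkB f g (pr z)) ≤ G (mkB f g (pr (mkT f g hD0 y))) := hz
    have e1 : mkB f g (pr (mkT f g hD0 y)) = pr y := by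
      funext i
      fin_cases i
      · show (g 1 * (f 0 * y 1 + f 1 * y 2) - f 1 * (g 0 * y 1 + g 1 * y 2)) /
          (f 0 * g 1 - f 1 * g 0) = y 1
        rw [div_eq_iff hD0]
        ring
      · show (f 0 * (g 0 * y 1 + g 1 * y 2) - g 0 * (f 0 * y 1 + f 1 * y 2)) /
          (f 0 * g 1 - f 1 * g 0) = y 2
        rw [div_eq_iff hD0]
        ring
    rw [e1] at hz'
    obtain ⟨x, hx⟩ : ∃ x : P2, x = mkB f g (pr z) := ⟨_, rfl⟩
    rw [← hx] at hz'
    have e2 : (mkT f g hD0).symm z = ![z 0, x 0, x 1] := by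
      rw [hx]
      rfl
    have e3 : (![y 0, (pr y) 0, (pr y) 1] : V) = y := by
      funext i
      fin_cases i <;> rfl
    have hz0' : z 0 = y 0 := hz0
    rw [e2, hz0']
    have hmem : pr y ∈ {x : P2 | ![y 0, x 0, x 1] ∈ K} := by
      show ![y 0, (pr y) 0, (pr y) 1] ∈ K
      rw [e3]
      exact hy
    have hSne : S.Nonempty := ⟨0, interior_subset (zero_mem_interior hS)⟩
    rcases hK (y 0) with h | ⟨r, hr, h⟩
    · rw [h] at hmem
      exact absurd hmem (Set.notMem_empty _)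
    · show x ∈ {x : P2 | ![y 0, x 0, x 1] ∈ K}
      rw [h] at hmem ⊢
      rcases hr.eq_or_lt with h0 | h0
      · rw [← h0, Set.zero_smul_set hSne] at hmem ⊢
        have h1 : pr y = 0 := hmem
        rw [h1, map_zero] at hz'
        have h2 := abs_nonpos_iff.1 ((hf x).trans hz')
        have h3 := abs_nonpos_iff.1 ((hg x).trans hz')
        unfold ip at h2 h3
        have h4 : x 0 = 0 := by
          have : x 0 * (f 0 * g 1 - f 1 * g 0) = 0 := by linear_combination g 1 * h2 - f 1 * h3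
          exact (mul_eq_zero.1 this).resolve_right hD0
        have h5 : x 1 = 0 := by
          have : x 1 * (f 0 * g 1 - f 1 * g 0) = 0 := by linear_combination f 0 * h3 - g 0 * h2
          exact (mul_eq_zero.1 this).resolve_right hD0
        show x = 0
        funext i
        fin_cases i
        · exact h4
        · exact h5
      · rw [Set.mem_smul_set_iff_inv_smul_mem₀ h0.ne', ← hGS, map_smul_eq_mul, Real.norm_eq_abs,
          abs_of_pos (by positivity), inv_mul_le_iff₀ h0, mul_one] at hmem ⊢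
        exact hz'.trans hmem

/-- `K` is an affine image of a set all of whose sections orthogonal to the first coordinate axis are
homothetic to one centrally symmetric convex body `S` of the plane, with centres on this axis -/
def HomSections (K : Set V) : Prop :=
  ∃ (S : Set P2) (K' : Set V) (L : V ≃ₗ[ℝ] V) (p : V),
    SymBody S ∧ Sections S K' ∧ K = (fun x => L x + p) '' K'

theorem aff_lattice {K : Set V} (hK : Body K) (hr : HomSections K) :
    ∃ b : Fin 3 → V, Packs K b ∧ ENNReal.ofReal (cst * |dt b|) ≤ volume K := by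
  obtain ⟨S, K', L, p, hS, hsec, rfl⟩ := hr
  obtain ⟨N, T, hN, hL, hhom⟩ := reduce hS hsec
  have e : (fun x => L x + p) '' K' = (fun x => (T.symm.trans L) x + p) '' (T '' K') := by
    rw [Set.image_image]
    apply Set.image_congr
    intro x _
    show L x + p = L (T.symm (T x)) + p
    rw [LinearEquiv.symm_apply_apply]
  rw [e] at hK ⊢
  exact aff_gen (T.symm.trans L) p hK fun h1 h2 h3 => norm_lattice hN hL h1 h2 h3 hhom

/-- a convex body in a body of the class of at most `l` times its volume -/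
theorem dens_low {K K₁ : Set V} (hK : Body K) (hK₁ : Body K₁) (hr : HomSections K₁) (hsub : K ⊆ K₁)
    {l : ℝ} (hl : 0 < l) (hv : volume K₁ ≤ ENNReal.ofReal l * volume K) :
    ENNReal.ofReal (cst / l) ≤ dL K := by
  obtain ⟨b, hb, hvol⟩ := aff_lattice hK₁ hr
  have hb' := (packs_iff _ _).1 hb
  have hpk : Packs K b := (packs_iff _ _).2 ⟨hb'.1, fun u hu hu0 hov =>
    hb'.2 u hu hu0 (by
      obtain ⟨x, hx, hxu⟩ := hov
      exact ⟨x, interior_mono hsub hx, interior_mono hsub hxu⟩)⟩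
  have hb1 : 0 < |dt b| := abs_pos.2 hb'.1
  rw [dL_eq]
  have hle : dens K b ≤ deltaL K := by
    unfold deltaL
    exact le_iSup₂_of_le b hpk le_rfl
  refine le_trans ?_ hle
  rw [dens_eq b hb.1 _ hK.1]
  rw [ENNReal.le_div_iff_mul_le (Or.inl (by
    rw [ne_eq, ENNReal.ofReal_eq_zero, not_le]; exact hb1)) (Or.inl ENNReal.ofReal_ne_top)]
  have hc0 : 0 < cst := by have := cst_gt; linarith
  have h1 : ENNReal.ofReal l * (ENNReal.ofReal (cst / l) * ENNReal.ofReal |dt b|) ≤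
      ENNReal.ofReal l * volume K := by
    refine le_trans (le_of_eq ?_) (hvol.trans hv)
    rw [← ENNReal.ofReal_mul (by positivity), ← ENNReal.ofReal_mul hl.le]
    congr 1
    field_simp
  have hl' : ENNReal.ofReal l ≠ 0 := by
    rw [ne_eq, ENNReal.ofReal_eq_zero, not_le]; exact hl
  exact (ENNReal.mul_le_mul_iff_right hl' ENNReal.ofReal_ne_top).1 h1

/-- the minimum is less than the value of the tetrahedron -/
theorem mn_lt : mn dL < ENNReal.ofReal (18 / 49) := by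
  obtain ⟨b⟩ := AffineBasis.exists_affineBasis_of_finiteDimensional (ι := Fin 4) (k := ℝ) (V := V)
    (P := V) (by simp)
  obtain ⟨A, h1, h2, h3, -, -, h4⟩ := near_tetra (b : Fin 4 → V) b.ind (1 / 10 ^ 15) (by positivity)
    le_rfl
  have h5 : mn dL ≤ dL A := iInf₂_le A ⟨h1, h2, h3⟩
  rw [dL_eq] at h5
  refine h5.trans_lt (h4.trans_lt ?_)
  rw [ENNReal.ofReal_lt_ofReal_iff (by norm_num)]
  norm_num

end Pool.Agent.U338.HS
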