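import Pool.Agent.U338.HS.H

/-!
# Convex solids of revolution have homothetic centrally symmetric sections
-/

set_option autoImplicit false

namespace Pool.Agent.U338.HS

open MeasureTheory Filter Topology
open scoped ENNReal Pointwise
open Pool.Agent.H349R2.Tet Pool.Agent.TH219.DL

/-- the disc -/
def disc : Set P2 := {x | x 0 ^ 2 + x 1 ^ 2 ≤ 1}

theorem disc_body : SymBody disc := by
  refine ⟨?_, ?_, ?_, ?_⟩
  · apply Metric.isCompact_of_isClosed_isBounded
    · apply isClosed_le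
      · fun_prop
      · exact continuous_const
    · apply (Metric.isBounded_closedBall (x := (0 : P2)) (r := 1)).subset
      intro x hx
      have hx' : x 0 ^ 2 + x 1 ^ 2 ≤ 1 := hx
      rw [mem_closedBall_zero_iff, pi_norm_le_iff_of_nonneg zero_le_one]
      intro i
      rw [Real.norm_eq_abs]
      apply abs_le_of_sq_le_sq _ zero_le_one
      fin_cases i
      · show x 0 ^ 2 ≤ 1 ^ 2
        nlinarith [sq_nonneg (x 1)]
      · show x 1 ^ 2 ≤ 1 ^ 2
        nlinarith [sq_nonneg (x 0)]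
  · intro x hx y hy a b ha hb hab
    have hx' : x 0 ^ 2 + x 1 ^ 2 ≤ 1 := hx
    have hy' : y 0 ^ 2 + y 1 ^ 2 ≤ 1 := hy
    show (a * x 0 + b * y 0) ^ 2 + (a * x 1 + b * y 1) ^ 2 ≤ 1
    have hab' : b = 1 - a := by linarith
    have h1 := mul_nonneg ha hb
    have h2 : 0 ≤ a * b * ((x 0 - y 0) ^ 2 + (x 1 - y 1) ^ 2) := by positivity
    have h3 := mul_le_mul_of_nonneg_left hx' ha
    have h4 := mul_le_mul_of_nonneg_left hy' hb
    have e : (a * x 0 + b * y 0) ^ 2 + (a * x 1 + b * y 1) ^ 2 =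
        a * (x 0 ^ 2 + x 1 ^ 2) + b * (y 0 ^ 2 + y 1 ^ 2) -
          a * b * ((x 0 - y 0) ^ 2 + (x 1 - y 1) ^ 2) := by
      rw [hab']; ring
    rw [e]
    linarith
  · refine ⟨0, mem_interior_iff_mem_nhds.2 (Metric.mem_nhds_iff.2 ⟨1 / 2, by norm_num, ?_⟩)⟩
    intro x hx
    rw [mem_ball_zero_iff] at hx
    have h0 : |x 0| ≤ 1 / 2 := by
      have := (norm_le_pi_norm x 0).trans hx.le
      rwa [Real.norm_eq_abs] at this
    have h1 : |x 1| ≤ 1 / 2 := by
      have := (norm_le_pi_norm x 1).trans hx.le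
      rwa [Real.norm_eq_abs] at this
    show x 0 ^ 2 + x 1 ^ 2 ≤ 1
    rw [← sq_abs (x 0), ← sq_abs (x 1)]
    nlinarith [abs_nonneg (x 0), abs_nonneg (x 1)]
  · intro x hx
    have hx' : x 0 ^ 2 + x 1 ^ 2 ≤ 1 := hx
    show (-x 0) ^ 2 + (-x 1) ^ 2 ≤ 1
    rw [neg_sq, neg_sq]
    exact hx'

theorem smul_disc {r : ℝ} (hr : 0 ≤ r) : r • disc = {x : P2 | x 0 ^ 2 + x 1 ^ 2 ≤ r ^ 2} := by
  have hne : disc.Nonempty := ⟨0, interior_subset (zero_mem_interior disc_body)⟩
  ext x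
  rcases hr.eq_or_lt with h | h
  · rw [← h, Set.zero_smul_set hne]
    simp only [Set.mem_zero, Set.mem_ofPred_eq]
    constructor
    · rintro rfl
      simp
    · intro hx
      funext i
      fin_cases i
      · show x 0 = 0
        nlinarith [sq_nonneg (x 0), sq_nonneg (x 1)]
      · show x 1 = 0
        nlinarith [sq_nonneg (x 0), sq_nonneg (x 1)]
  · rw [Set.mem_smul_set_iff_inv_smul_mem₀ h.ne']
    show (r⁻¹ * x 0) ^ 2 + (r⁻¹ * x 1) ^ 2 ≤ 1 ↔ x 0 ^ 2 + x 1 ^ 2 ≤ r ^ 2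
    have e : (r⁻¹ * x 0) ^ 2 + (r⁻¹ * x 1) ^ 2 = (x 0 ^ 2 + x 1 ^ 2) / r ^ 2 := by
      field_simp
    rw [e, div_le_one (by positivity)]

theorem rev_sections {K : Set V} (hK : IsCompact K) (hc : Convex ℝ K)
    (hr : Pool.Agent.U806.Rev.IsRev K) : Sections disc K := by
  intro t
  rcases Set.eq_empty_or_nonempty {x : P2 | ![t, x 0, x 1] ∈ K} with h | ⟨x₀, hx₀⟩
  · exact Or.inl h
  · right
    have hx₀' : (![t, x₀ 0, x₀ 1] : V) ∈ K := hx₀
    have hKt : IsCompact (K ∩ {y : V | y 0 = t}) := by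
      apply hK.inter_right
      exact isClosed_eq (continuous_apply 0) continuous_const
    obtain ⟨w, hw, hwm⟩ := hKt.exists_isMaxOn ⟨_, hx₀', rfl⟩
      Pool.Agent.U806.Rev.rad_cont.continuousOn
    have hwt : w 0 = t := hw.2
    refine ⟨Pool.Agent.U806.Rev.rad w, Pool.Agent.U806.Rev.rad_nonneg w, ?_⟩
    rw [smul_disc (Pool.Agent.U806.Rev.rad_nonneg w)]
    ext x
    have hsq := Pool.Agent.U806.Rev.rad_sq (![t, x 0, x 1] : V)
    have hsq' : Pool.Agent.U806.Rev.rad (![t, x 0, x 1] : V) ^ 2 = x 0 ^ 2 + x 1 ^ 2 := hsq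
    constructor
    · intro hx
      have h1 : Pool.Agent.U806.Rev.rad (![t, x 0, x 1] : V) ≤ Pool.Agent.U806.Rev.rad w :=
        hwm ⟨hx, rfl⟩
      show x 0 ^ 2 + x 1 ^ 2 ≤ _
      rw [← hsq']
      exact pow_le_pow_left₀ (Pool.Agent.U806.Rev.rad_nonneg _) h1 2
    · intro hx
      have hx' : x 0 ^ 2 + x 1 ^ 2 ≤ Pool.Agent.U806.Rev.rad w ^ 2 := hx
      rw [← hsq'] at hx'
      have h1 : Pool.Agent.U806.Rev.rad (![t, x 0, x 1] : V) ≤ Pool.Agent.U806.Rev.rad w :=
        (pow_le_pow_iff_left₀ (Pool.Agent.U806.Rev.rad_nonneg _)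
          (Pool.Agent.U806.Rev.rad_nonneg _) two_ne_zero).1 hx'
      exact Pool.Agent.U806.Rev.disc hc hr hw.1 hwt.symm h1

/-- affine images of solids of revolution are in the class -/
theorem affRev {K : Set V} (hB : Body K) (hr : Pool.Agent.U806.Rev.AffRev K) : HomSections K := by
  obtain ⟨K', L, p, hr', rfl⟩ := hr
  obtain ⟨h1, h2, -⟩ := hB
  let Φ : V ≃ₜ V := L.toContinuousLinearEquiv.toHomeomorph.trans (Homeomorph.addRight p)
  have hΦ : (fun x => L x + p) = Φ := rfl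
  have hK' : IsCompact K' := by
    rw [hΦ] at h1
    exact Φ.isCompact_image.1 h1
  have hconv : Convex ℝ K' := by
    intro x hx y hy a b ha hb hab
    obtain ⟨z, hz, hz'⟩ := h2 ⟨x, hx, rfl⟩ ⟨y, hy, rfl⟩ ha hb hab
    have e : a • (L x + p) + b • (L y + p) = L (a • x + b • y) + p := by
      rw [map_add, map_smul, map_smul, smul_add, smul_add]
      have : p = a • p + b • p := by rw [← add_smul, hab, one_smul]
      nth_rewrite 3 [this]
      abel
    have h4 : L z + p = L (a • x + b • y) + p := hz'.trans e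
    have h5 : z = a • x + b • y := L.injective (add_right_cancel h4)
    rw [← h5]
    exact hz
  exact ⟨disc, K', L, p, disc_body, rev_sections hK' hconv hr', rfl⟩

end Pool.Agent.U338.HS
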